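import Mathlib

namespace Pool.Agent.MP_04e188_an

/-- Bilinear dot product on `ℂ^3`. -/
def dt (a b : Fin 3 → ℂ) : ℂ := a 0 * b 0 + a 1 * b 1 + a 2 * b 2

/-- Determinant (triple product) on `ℂ^3`. -/
def dtm (a b c : Fin 3 → ℂ) : ℂ :=
  a 0 * (b 1 * c 2 - b 2 * c 1) + a 1 * (b 2 * c 0 - b 0 * c 2) + a 2 * (b 0 * c 1 - b 1 * c 0)

/-- Cross product on `ℂ^3`. -/
def cr (a b : Fin 3 → ℂ) : Fin 3 → ℂ :=
  ![a 1 * b 2 - a 2 * b 1, a 2 * b 0 - a 0 * b 2, a 0 * b 1 - a 1 * b 0]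

lemma cr0 (a b : Fin 3 → ℂ) : cr a b 0 = a 1 * b 2 - a 2 * b 1 := rfl
lemma cr1 (a b : Fin 3 → ℂ) : cr a b 1 = a 2 * b 0 - a 0 * b 2 := rfl
lemma cr2 (a b : Fin 3 → ℂ) : cr a b 2 = a 0 * b 1 - a 1 * b 0 := rfl

/-- A vector orthogonal to the unit vector `p` is a cross product with `p`. -/
lemma eq_cr_of_orth {p a : Fin 3 → ℂ} (hp : dt p p = 1) (ha : dt p a = 0) : a = cr p (cr a p) := by
  simp only [dt] at hp ha
  funext i
  fin_cases i
  · simp only [Fin.zero_eta, cr0, cr1, cr2]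
    linear_combination (-(a 0)) * hp + (p 0) * ha
  · simp only [Fin.mk_one, cr0, cr1, cr2]
    linear_combination (-(a 1)) * hp + (p 1) * ha
  · simp only [Fin.reduceFinMk, cr0, cr1, cr2]
    linear_combination (-(a 2)) * hp + (p 2) * ha

/-- On the quadric, the cross product of tangent vectors is normal. -/
lemma cross_eq {z a b : Fin 3 → ℂ} (hz : dt z z = 1) (ha : dt z a = 0) (hb : dt z b = 0) (i : Fin 3) :
    cr a b i = dtm z a b * z i := by
  simp only [dt] at hz ha hb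
  fin_cases i
  · simp only [Fin.zero_eta, cr0, dtm]
    linear_combination (-(a 1 * b 2 - a 2 * b 1)) * hz + (z 1 * b 2 - z 2 * b 1) * ha -
      (z 1 * a 2 - z 2 * a 1) * hb
  · simp only [Fin.mk_one, cr1, dtm]
    linear_combination (-(a 2 * b 0 - a 0 * b 2)) * hz + (z 2 * b 0 - z 0 * b 2) * ha -
      (z 2 * a 0 - z 0 * a 2) * hb
  · simp only [Fin.reduceFinMk, cr2, dtm]
    linear_combination (-(a 0 * b 1 - a 1 * b 0)) * hz + (z 0 * b 1 - z 1 * b 0) * ha -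
      (z 0 * a 1 - z 1 * a 0) * hb

/-- (a', b') part -/
lemma id_qq (p q m n : Fin 3 → ℂ) :
    dt (cr p q) (cr p q) * (-(dt (cr p (cr q m)) (cr q n)) + dt (cr p (cr q n)) (cr q m)) +
    2 * dt p q * (-(dt p (cr q m) * dt (cr p q) (cr q n)) + dt p (cr q n) * dt (cr p q) (cr q m)) = 0 := by
  simp only [dt, cr0, cr1, cr2]
  ring

/-- (a, b) part -/
lemma id_pp (p q m n : Fin 3 → ℂ) :
    dt (cr p q) (cr p q) * ((dt (cr p m) q * dt (cr p q) (cr p n) - dt (cr p n) q * dt (cr p q) (cr p m)) +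
      dt p q * (dt (cr (cr p m) q) (cr p n) - dt (cr (cr p n) q) (cr p m))) +
    2 * dt p q ^ 2 * (dt (cr p m) q * dt (cr p q) (cr p n) - dt (cr p n) q * dt (cr p q) (cr p m)) =
    dt (cr p q) (cr p q) ^ 2 * dtm p m n := by
  simp only [dt, dtm, cr0, cr1, cr2]
  ring

/-- (a, b') part -/
lemma id_pq (p q m n : Fin 3 → ℂ) :
    - dt p p * dt (cr p q) (cr p q) * dt (cr (cr p m) q) (cr q n)
    - dt (cr p q) (cr p q) * dt p (cr q n) * dt (cr p q) (cr p m)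
    - dt p q * dt (cr p q) (cr p q) * dt (cr p (cr q n)) (cr p m)
    - 2 * dt p p * dt p q * dt (cr p m) q * dt (cr p q) (cr q n)
    - 2 * dt p q ^ 2 * dt p (cr q n) * dt (cr p q) (cr p m) = 0 := by
  simp only [dt, cr0, cr1, cr2]
  ring

lemma dt_cr_cr (p q : Fin 3 → ℂ) : dt (cr p q) (cr p q) = dt p p * dt q q - dt p q ^ 2 := by
  simp only [dt, cr0, cr1, cr2]
  ring

lemma dtm_cr_cr (p m n : Fin 3 → ℂ) : dtm p (cr p m) (cr p n) = dt p p * dtm p m n := by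
  simp only [dt, dtm, cr0, cr1, cr2]
  ring

/-- The pointwise identity `dβ = ω` on the complex quadric, in polarized form. -/
lemma key_identity (p q a b a' b' : Fin 3 → ℂ) (hp : dt p p = 1) (hq : dt q q = 1)
    (ha : dt p a = 0) (hb : dt p b = 0) (ha' : dt q a' = 0) (hb' : dt q b' = 0) :
    (1 - dt p q ^ 2) * (((dt a q + dt p a') * dt (cr p q) b +
        dt p q * (dt (cr a q) b + dt (cr p a') b) - (dt (cr a q) b' + dt (cr p a') b')) -
      ((dt b q + dt p b') * dt (cr p q) a +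
        dt p q * (dt (cr b q) a + dt (cr p b') a) - (dt (cr b q) a' + dt (cr p b') a'))) +
    2 * dt p q * ((dt a q + dt p a') * (dt p q * dt (cr p q) b - dt (cr p q) b') -
      (dt b q + dt p b') * (dt p q * dt (cr p q) a - dt (cr p q) a')) =
    (1 - dt p q ^ 2) ^ 2 * dtm p a b := by
  obtain ⟨m, hm⟩ : ∃ m, a = cr p m := ⟨_, eq_cr_of_orth hp ha⟩
  obtain ⟨n, hn⟩ : ∃ n, b = cr p n := ⟨_, eq_cr_of_orth hp hb⟩
  obtain ⟨m', hm'⟩ : ∃ m, a' = cr q m := ⟨_, eq_cr_of_orth hq ha'⟩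
  obtain ⟨n', hn'⟩ : ∃ n, b' = cr q n := ⟨_, eq_cr_of_orth hq hb'⟩
  have hD := dt_cr_cr p q
  rw [hp, hq, one_mul] at hD
  have e1 := id_pp p q m n
  have e2 := id_pq p q m n'
  have e3 := id_pq p q n m'
  have e4 := id_qq p q m' n'
  have e5 := dtm_cr_cr p m n
  rw [hp] at e2 e3 e5
  rw [hD] at e1 e2 e3 e4
  rw [← hm, ← hn] at e5 e1
  rw [← hm, ← hn'] at e2
  rw [← hn, ← hm'] at e3
  rw [← hm', ← hn'] at e4
  rw [e5]
  linear_combination e1 + e2 - e3 + e4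

end Pool.Agent.MP_04e188_an
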