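import Mathlib
import Pool.Agent.MP_04e188_an.VecId

open Set Filter Topology

namespace Pool.Agent.MP_04e188_an

/-- componentwise complex conjugation -/
noncomputable def cj (z : Fin 3 → ℂ) : Fin 3 → ℂ := fun i => starRingEnd ℂ (z i)

lemma dt_add_left (a b c : Fin 3 → ℂ) : dt (a + b) c = dt a c + dt b c := by
  simp only [dt, Pi.add_apply]; ring

lemma dt_add_right (a b c : Fin 3 → ℂ) : dt a (b + c) = dt a b + dt a c := by
  simp only [dt, Pi.add_apply]; ring

lemma cj_add (a b : Fin 3 → ℂ) : cj (a + b) = cj a + cj b := by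
  funext i; simp [cj]

lemma dt_cj_cj (a b : Fin 3 → ℂ) : dt (cj a) (cj b) = starRingEnd ℂ (dt a b) := by
  simp [dt, cj]

section curves

variable {x y : ℝ → Fin 3 → ℂ} {x' y' : Fin 3 → ℂ} {t : ℝ}

lemma hasDerivAt_dt (hx : HasDerivAt x x' t) (hy : HasDerivAt y y' t) :
    HasDerivAt (fun s => dt (x s) (y s)) (dt x' (y t) + dt (x t) y') t := by
  have hx' := hasDerivAt_pi.1 hx
  have hy' := hasDerivAt_pi.1 hy
  have := (((hx' 0).mul (hy' 0)).add ((hx' 1).mul (hy' 1))).add ((hx' 2).mul (hy' 2))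
  exact this.congr_deriv (by simp only [dt]; ring)

lemma hasDerivAt_cr (hx : HasDerivAt x x' t) (hy : HasDerivAt y y' t) :
    HasDerivAt (fun s => cr (x s) (y s)) (cr x' (y t) + cr (x t) y') t := by
  have hx' := hasDerivAt_pi.1 hx
  have hy' := hasDerivAt_pi.1 hy
  rw [hasDerivAt_pi]
  intro i
  fin_cases i
  · simp only [Fin.zero_eta, cr0, Pi.add_apply]
    exact (((hx' 1).mul (hy' 2)).sub ((hx' 2).mul (hy' 1))).congr_deriv (by ring)
  · simp only [Fin.mk_one, cr1, Pi.add_apply]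
    exact (((hx' 2).mul (hy' 0)).sub ((hx' 0).mul (hy' 2))).congr_deriv (by ring)
  · simp only [Fin.reduceFinMk, cr2, Pi.add_apply]
    exact (((hx' 0).mul (hy' 1)).sub ((hx' 1).mul (hy' 0))).congr_deriv (by ring)

lemma hasDerivAt_cj (hx : HasDerivAt x x' t) : HasDerivAt (fun s => cj (x s)) (cj x') t := by
  have hx' := hasDerivAt_pi.1 hx
  rw [hasDerivAt_pi]
  intro i
  exact ((Complex.conjCLE : ℂ →L[ℝ] ℂ).hasFDerivAt (x := x t i)).comp_hasDerivAt t (hx' i)

end curves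

/-- The value of the primitive `β` of the area form at `z`, applied to `b`. -/
noncomputable def betaVal (z b : Fin 3 → ℂ) : ℂ :=
  (dt z (cj z) * dt (cr z (cj z)) b - dt (cr z (cj z)) (cj b)) / (1 - dt z (cj z) ^ 2)

/-- coordinate functional, as a real-linear map -/
noncomputable def prL (i : Fin 3) : (Fin 3 → ℂ) →L[ℝ] ℂ := ContinuousLinearMap.proj i

/-- conjugate coordinate functional -/
noncomputable def prLc (i : Fin 3) : (Fin 3 → ℂ) →L[ℝ] ℂ :=
  (Complex.conjCLE : ℂ →L[ℝ] ℂ).comp (ContinuousLinearMap.proj i)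

/-- `β` as a 1-form -/
noncomputable def beta (z : Fin 3 → ℂ) : (Fin 3 → ℂ) →L[ℝ] ℂ :=
  (∑ i, (dt z (cj z) * cr z (cj z) i * (1 - dt z (cj z) ^ 2)⁻¹) • prL i) -
    ∑ i, (cr z (cj z) i * (1 - dt z (cj z) ^ 2)⁻¹) • prLc i

lemma beta_apply (z b : Fin 3 → ℂ) : beta z b = betaVal z b := by
  simp only [beta, betaVal, prL, prLc, Fin.sum_univ_three, dt, cj]
  simp
  ring

lemma contDiff_coord (i : Fin 3) : ContDiff ℝ 1 (fun z : Fin 3 → ℂ => z i) := (prL i).contDiff

lemma contDiff_cj (i : Fin 3) : ContDiff ℝ 1 (fun z : Fin 3 → ℂ => cj z i) := (prLc i).contDiff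

lemma contDiff_rho : ContDiff ℝ 1 (fun z : Fin 3 → ℂ => dt z (cj z)) := by
  simp only [dt]
  exact (((contDiff_coord 0).mul (contDiff_cj 0)).add ((contDiff_coord 1).mul (contDiff_cj 1))).add
    ((contDiff_coord 2).mul (contDiff_cj 2))

lemma contDiff_cr (i : Fin 3) : ContDiff ℝ 1 (fun z : Fin 3 → ℂ => cr z (cj z) i) := by
  fin_cases i
  · simp only [Fin.zero_eta, cr0]
    exact ((contDiff_coord 1).mul (contDiff_cj 2)).sub ((contDiff_coord 2).mul (contDiff_cj 1))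
  · simp only [Fin.mk_one, cr1]
    exact ((contDiff_coord 2).mul (contDiff_cj 0)).sub ((contDiff_coord 0).mul (contDiff_cj 2))
  · simp only [Fin.reduceFinMk, cr2]
    exact ((contDiff_coord 0).mul (contDiff_cj 1)).sub ((contDiff_coord 1).mul (contDiff_cj 0))

lemma contDiffAt_smul_const {c : (Fin 3 → ℂ) → ℂ} {z : Fin 3 → ℂ} (hc : ContDiffAt ℝ 1 c z)
    (L : (Fin 3 → ℂ) →L[ℝ] ℂ) : ContDiffAt ℝ 1 (fun z => c z • L) z := by
  let T : ℂ →L[ℝ] ((Fin 3 → ℂ) →L[ℝ] ℂ) := LinearMap.toContinuousLinearMap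
    { toFun := fun c => c • L
      map_add' := fun a b => add_smul a b L
      map_smul' := fun r a => by ext v; simp [mul_assoc] }
  exact T.contDiff.contDiffAt.comp z hc

lemma contDiffAt_beta {z : Fin 3 → ℂ} (hz : 1 - dt z (cj z) ^ 2 ≠ 0) : ContDiffAt ℝ 1 beta z := by
  have hD : ContDiffAt ℝ 1 (fun z : Fin 3 → ℂ => 1 - dt z (cj z) ^ 2) z :=
    (contDiff_const.sub (contDiff_rho.pow 2)).contDiffAt
  refine ContDiffAt.sub ?_ ?_
  · refine ContDiffAt.sum fun i _ => contDiffAt_smul_const ?_ _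
    exact ((contDiff_rho.mul (contDiff_cr i)).contDiffAt).mul (hD.inv hz)
  · refine ContDiffAt.sum fun i _ => contDiffAt_smul_const ?_ _
    exact ((contDiff_cr i).contDiffAt).mul (hD.inv hz)

lemma fderiv_beta {z : Fin 3 → ℂ} (hz : 1 - dt z (cj z) ^ 2 ≠ 0) (a b : Fin 3 → ℂ) :
    (fderiv ℝ beta z a) b =
      ((1 - dt z (cj z) ^ 2) * ((dt a (cj z) + dt z (cj a)) * dt (cr z (cj z)) b +
        dt z (cj z) * (dt (cr a (cj z)) b + dt (cr z (cj a)) b) -
        (dt (cr a (cj z)) (cj b) + dt (cr z (cj a)) (cj b))) +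
      2 * dt z (cj z) * ((dt a (cj z) + dt z (cj a)) *
        (dt z (cj z) * dt (cr z (cj z)) b - dt (cr z (cj z)) (cj b)))) / (1 - dt z (cj z) ^ 2) ^ 2 := by
  have h1 : HasFDerivAt beta (fderiv ℝ beta z) z :=
    ((contDiffAt_beta hz).differentiableAt (by norm_num)).hasFDerivAt
  have hcurve : HasDerivAt (fun t : ℝ => z + t • a) a 0 := by
    have h3 : HasDerivAt (fun c : ℝ => c • a) ((1 : ℝ) • a) 0 := (hasDerivAt_id (0 : ℝ)).smul_const a
    rw [one_smul] at h3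
    exact h3.const_add z
  have h2 : HasDerivAt (fun t : ℝ => beta (z + t • a) b) ((fderiv ℝ beta z a) b) 0 := by
    have h4 : HasFDerivAt beta (fderiv ℝ beta z) (z + (0 : ℝ) • a) := by
      rw [zero_smul, add_zero]; exact h1
    have h5 := h4.comp_hasDerivAt (0 : ℝ) hcurve
    exact ((ContinuousLinearMap.apply ℝ ℂ b).hasFDerivAt.comp_hasDerivAt _ h5)
  have hcj : HasDerivAt (fun t : ℝ => cj (z + t • a)) (cj a) 0 := hasDerivAt_cj hcurve
  have hrho := hasDerivAt_dt hcurve hcj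
  have hW := hasDerivAt_cr hcurve hcj
  have hWb := hasDerivAt_dt hW (hasDerivAt_const (0 : ℝ) b)
  have hWcb := hasDerivAt_dt hW (hasDerivAt_const (0 : ℝ) (cj b))
  have hN := (hrho.mul hWb).sub hWcb
  have hD := (hrho.pow 2).const_sub 1
  have hz' : (1 : ℂ) - dt (z + (0 : ℝ) • a) (cj (z + (0 : ℝ) • a)) ^ 2 ≠ 0 := by
    rw [zero_smul, add_zero]; exact hz
  have h6 := hN.div hD hz'
  have h7 : HasDerivAt (fun t : ℝ => beta (z + t • a) b) _ 0 :=
    h6.congr_of_eventuallyEq (Eventually.of_forall fun t => by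
      change beta (z + t • a) b = _
      rw [beta_apply, betaVal]; rfl)
  rw [h2.unique h7]
  have hdt0 : ∀ v : Fin 3 → ℂ, dt v 0 = 0 := fun v => by simp [dt]
  have hdt0' : ∀ v : Fin 3 → ℂ, dt 0 v = 0 := fun v => by simp [dt]
  simp only [zero_smul, add_zero, dt_add_left, hdt0, hdt0', Pi.mul_apply, Pi.sub_apply, Pi.pow_apply]
  congr 1
  push_cast
  ring

/-- `dβ = ω` on the complex quadric, off the real sphere. -/
lemma dbeta_eq {z : Fin 3 → ℂ} (hz : dt z z = 1) (hD : 1 - dt z (cj z) ^ 2 ≠ 0) {a b : Fin 3 → ℂ}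
    (ha : dt z a = 0) (hb : dt z b = 0) :
    (fderiv ℝ beta z a) b - (fderiv ℝ beta z b) a = dtm z a b := by
  rw [fderiv_beta hD, fderiv_beta hD, ← sub_div, div_eq_iff (pow_ne_zero 2 hD)]
  have h := key_identity z (cj z) a b (cj a) (cj b) hz (by rw [dt_cj_cj, hz, map_one]) ha hb
    (by rw [dt_cj_cj, ha, map_zero]) (by rw [dt_cj_cj, hb, map_zero])
  linear_combination h

end Pool.Agent.MP_04e188_an
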