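import Mathlib

open MeasureTheory Set Filter Topology Metric

namespace Pool.Agent.MP_04e188_an

section

variable {E F : Type*} [NormedAddCommGroup E] [NormedSpace ℂ E] [FiniteDimensional ℂ E]
  [NormedAddCommGroup F] [NormedSpace ℂ F] [CompleteSpace F]

omit [FiniteDimensional ℂ E] in
/-- Cauchy's formula for a directional derivative. -/
lemma fderiv_apply_eq_integral {f : E → F} (hf : Differentiable ℂ f) (z v : E) :
    fderiv ℂ f z v = ∫ θ in (0 : ℝ)..2 * Real.pi,
      ((2 * Real.pi * Complex.I : ℂ)⁻¹ * (deriv (circleMap 0 1) θ * (1 / (circleMap 0 1 θ) ^ 2))) •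
        f (z + circleMap 0 1 θ • v) := by
  have hline : Differentiable ℂ (fun c : ℂ => z + c • v) :=
    (differentiable_const z).add (differentiable_id.smul_const v)
  have hφ : Differentiable ℂ (fun c : ℂ => f (z + c • v)) := hf.comp hline
  have h1 : deriv (fun c : ℂ => f (z + c • v)) 0 = fderiv ℂ f z v := by
    have h2 : HasDerivAt (fun c : ℂ => z + c • v) v 0 := by
      have h3 : HasDerivAt (fun c : ℂ => c • v) ((1 : ℂ) • v) 0 := (hasDerivAt_id (0 : ℂ)).smul_const v
      rw [one_smul] at h3
      exact h3.const_add z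
    have h4 : HasFDerivAt f (fderiv ℂ f z) (z + (0 : ℂ) • v) := by
      rw [zero_smul, add_zero]
      exact (hf z).hasFDerivAt
    exact (h4.comp_hasDerivAt (0 : ℂ) h2).deriv
  have h5 := hφ.diffContOnCl.deriv_eq_smul_circleIntegral (c := 0) (R := 1) one_pos
  have h6 : (2 * Real.pi * Complex.I : ℂ) ≠ 0 := by
    simp [Real.pi_ne_zero]
  have h7 : fderiv ℂ f z v = (2 * Real.pi * Complex.I : ℂ)⁻¹ •
      ((2 * Real.pi * Complex.I : ℂ) • deriv (fun c : ℂ => f (z + c • v)) 0) := by
    rw [h1, smul_smul, inv_mul_cancel₀ h6, one_smul]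
  rw [h7, ← h5, circleIntegral, ← intervalIntegral.integral_smul]
  refine intervalIntegral.integral_congr fun θ _ => ?_
  simp only [sub_zero, smul_smul]

lemma continuous_kernel : Continuous (fun θ : ℝ =>
    (2 * Real.pi * Complex.I : ℂ)⁻¹ * (deriv (circleMap 0 1) θ * (1 / (circleMap 0 1 θ) ^ 2))) := by
  refine continuous_const.mul (Continuous.mul ?_ ?_)
  · have : deriv (circleMap 0 1) = fun θ => circleMap 0 1 θ * Complex.I := by
      ext θ; exact deriv_circleMap 0 1 θ
    rw [this]
    exact (continuous_circleMap 0 1).mul continuous_const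
  · refine continuous_const.div ((continuous_circleMap 0 1).pow 2) fun θ => ?_
    simp [circleMap]

omit [FiniteDimensional ℂ E] in
lemma continuous_fderiv_apply {f : E → F} (hf : Differentiable ℂ f) (v : E) :
    Continuous fun z => fderiv ℂ f z v := by
  simp only [fderiv_apply_eq_integral hf]
  apply intervalIntegral.continuous_parametric_intervalIntegral_of_continuous'
  refine Continuous.smul (continuous_kernel.comp continuous_snd) (hf.continuous.comp ?_)
  exact continuous_fst.add (((continuous_circleMap 0 1).comp continuous_snd).smul continuous_const)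

lemma continuous_fderiv_of_differentiable {f : E → F} (hf : Differentiable ℂ f) :
    Continuous (fderiv ℂ f) :=
  continuous_clm_apply.2 fun v => continuous_fderiv_apply hf v

lemma differentiable_fderiv_apply {f : E → F} (hf : Differentiable ℂ f) (v : E) :
    Differentiable ℂ fun z => fderiv ℂ f z v := by
  intro z₀
  simp only [fderiv_apply_eq_integral hf]
  have hc := continuous_fderiv_of_differentiable hf
  have : ProperSpace E := FiniteDimensional.proper ℂ E
  let k : ℝ → ℂ := fun θ =>
    (2 * Real.pi * Complex.I : ℂ)⁻¹ * (deriv (circleMap 0 1) θ * (1 / (circleMap 0 1 θ) ^ 2))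
  have hk : Continuous k := continuous_kernel
  let G : E → ℝ → F := fun z θ => k θ • f (z + circleMap 0 1 θ • v)
  let G' : E → ℝ → E →L[ℂ] F := fun z θ => k θ • fderiv ℂ f (z + circleMap 0 1 θ • v)
  have hpt : Continuous fun p : E × ℝ => p.1 + circleMap 0 1 p.2 • v :=
    continuous_fst.add (((continuous_circleMap 0 1).comp continuous_snd).smul continuous_const)
  have hG : Continuous (Function.uncurry G) :=
    (hk.comp continuous_snd).smul (hf.continuous.comp hpt)
  have hG' : Continuous (Function.uncurry G') :=
    (hk.comp continuous_snd).smul (hc.comp hpt)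
  obtain ⟨M, hM⟩ := ((isCompact_closedBall z₀ 1).prod (isCompact_Icc (a := (0 : ℝ)) (b := 2 * Real.pi))).exists_bound_of_continuousOn
    hG'.continuousOn
  have key := intervalIntegral.hasFDerivAt_integral_of_dominated_of_fderiv_le (𝕜 := ℂ) (μ := volume)
    (F := G) (F' := G') (x₀ := z₀) (a := 0) (b := 2 * Real.pi) (s := closedBall z₀ 1)
    (bound := fun _ => M) (closedBall_mem_nhds z₀ one_pos)
    (Eventually.of_forall fun z => (hG.comp (Continuous.prodMk_right z)).aestronglyMeasurable)
    ((hG.comp (Continuous.prodMk_right z₀)).intervalIntegrable _ _)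
    ((hG'.comp (Continuous.prodMk_right z₀)).aestronglyMeasurable)
    (Eventually.of_forall fun θ hθ z hz => by
      rw [uIoc_of_le (by positivity)] at hθ
      exact hM (z, θ) ⟨hz, hθ.1.le, hθ.2⟩)
    (by simp)
    (Eventually.of_forall fun θ _ z _ => by
      have h1 : HasFDerivAt (fun z => z + circleMap 0 1 θ • v) (ContinuousLinearMap.id ℂ E) z :=
        (hasFDerivAt_id z).add_const _
      have h2 := ((hf (z + circleMap 0 1 θ • v)).hasFDerivAt.comp z h1).const_smul (k θ)
      rw [ContinuousLinearMap.comp_id] at h2
      exact h2)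
  exact key.differentiableAt

/-- An entire function of several complex variables is smooth. -/
theorem contDiff_of_differentiable (n : ℕ) : ∀ {f : E → F}, Differentiable ℂ f → ContDiff ℂ n f := by
  induction n with
  | zero => intro f hf; exact contDiff_zero.2 hf.continuous
  | succ n ih =>
    intro f hf
    rw [Nat.cast_add, Nat.cast_one, contDiff_succ_iff_fderiv]
    refine ⟨hf, fun h => by simp at h, ?_⟩
    rw [contDiff_clm_apply_iff]
    intro v
    exact ih (differentiable_fderiv_apply hf v)

end

end Pool.Agent.MP_04e188_an
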