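import Mathlib
import Pool.Agent.MP_04e188_an.Regularity

open MeasureTheory Set Filter Topology Metric

namespace Pool.Agent.MP_04e188_an

/-- The Taylor coefficients of an entire function on `ℂ^n` are polynomials. -/
lemma exists_taylor_poly {n : ℕ} {h : (Fin n → ℂ) → ℂ} (hh : Differentiable ℂ h) (k : ℕ) :
    ∃ P : MvPolynomial (Fin n) ℂ, ∀ z : Fin n → ℂ,
      (k.factorial : ℂ)⁻¹ • iteratedDeriv k (fun c : ℂ => h (c • z)) 0 = MvPolynomial.eval z P := by
  classical
  set M := iteratedFDeriv ℂ k h 0 with hM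
  refine ⟨∑ r : Fin k → Fin n, MvPolynomial.C ((k.factorial : ℂ)⁻¹ *
    M (fun j => Pi.single (r j) (1 : ℂ))) * ∏ j, MvPolynomial.X (r j), fun z => ?_⟩
  have h1 : iteratedDeriv k (fun c : ℂ => h (c • z)) 0 = M (fun _ => z) := by
    rw [iteratedDeriv_eq_iteratedFDeriv]
    have h2 : (fun c : ℂ => h (c • z)) = h ∘ (ContinuousLinearMap.toSpanSingleton ℂ z) := by
      ext c; simp
    rw [h2, ContinuousLinearMap.iteratedFDeriv_comp_right (n := k) _ (contDiff_of_differentiable k hh) _ le_rfl]
    simp [hM]
  have h3 : z = ∑ i, z i • (Pi.single i (1 : ℂ) : Fin n → ℂ) := by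
    ext j
    simp [Finset.sum_apply, Pi.single_apply]
  rw [h1]
  have h4 : M (fun _ => z) = ∑ r : Fin k → Fin n, (∏ j, z (r j)) * M (fun j => Pi.single (r j) (1 : ℂ)) := by
    conv_lhs => rw [h3]
    have := M.toMultilinearMap.map_sum (fun (_ : Fin k) (i : Fin n) => z i • (Pi.single i (1 : ℂ) : Fin n → ℂ))
    simp only [ContinuousMultilinearMap.coe_coe] at this
    rw [this]
    refine Finset.sum_congr rfl fun r _ => ?_
    have h5 := M.toMultilinearMap.map_smul_univ (fun j => z (r j)) (fun j => (Pi.single (r j) (1 : ℂ) : Fin n → ℂ))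
    simp only [ContinuousMultilinearMap.coe_coe, smul_eq_mul] at h5
    exact h5
  rw [h4, map_sum, Finset.smul_sum]
  refine Finset.sum_congr rfl fun r _ => ?_
  simp only [map_mul, MvPolynomial.eval_C, map_prod, MvPolynomial.eval_X, smul_eq_mul]
  ring

/-- If a weighted integral over a compact set kills all polynomials, it kills all entire functions. -/
theorem integral_entire_eq_zero {n : ℕ} {X : Type*} [TopologicalSpace X] [MeasurableSpace X]
    [OpensMeasurableSpace X] (μ : Measure X) [IsFiniteMeasureOnCompacts μ] (K : Set X)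
    (hK : IsCompact K) (hKm : MeasurableSet K) [SecondCountableTopology X]
    (u : X → (Fin n → ℂ)) (hu : Continuous u) (w : X → ℂ) (hw : Continuous w)
    (hP : ∀ P : MvPolynomial (Fin n) ℂ, ∫ q in K, MvPolynomial.eval (u q) P * w q ∂μ = 0)
    (h : (Fin n → ℂ) → ℂ) (hh : Differentiable ℂ h) :
    ∫ q in K, h (u q) * w q ∂μ = 0 := by
  choose P hPz using fun k => exists_taylor_poly hh k
  obtain ⟨M, hM⟩ := ((isCompact_sphere (0 : ℂ) 2).prod hK).exists_bound_of_continuousOn
    (f := fun p : ℂ × X => h (p.1 • u p.2))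
    ((hh.continuous.comp (continuous_fst.smul (hu.comp continuous_snd))).continuousOn)
  obtain ⟨W, hW⟩ := hK.exists_bound_of_continuousOn hw.continuousOn
  have hfin : IsFiniteMeasure (μ.restrict K) := ⟨by
    rw [Measure.restrict_apply_univ]; exact hK.measure_lt_top⟩
  have hdil : ∀ z : Fin n → ℂ, Differentiable ℂ (fun c : ℂ => h (c • z)) := fun z =>
    hh.comp (differentiable_id.smul_const z)
  have hbound : ∀ k, ∀ q ∈ K, ‖MvPolynomial.eval (u q) (P k) * w q‖ ≤ M * W * (1/2) ^ k := by
    intro k q hq
    have h1 := Complex.norm_iteratedDeriv_le_of_forall_mem_sphere_norm_le (c := 0) (R := 2) (C := M) k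
      two_pos (hdil (u q)).diffContOnCl (fun c hc => hM (c, q) ⟨hc, hq⟩)
    have h2 := hPz k (u q)
    have h3 : ‖MvPolynomial.eval (u q) (P k)‖ ≤ M * (1/2) ^ k := by
      rw [← h2, norm_smul, norm_inv, Complex.norm_natCast]
      have hk : (0 : ℝ) < k.factorial := by exact_mod_cast k.factorial_pos
      calc (k.factorial : ℝ)⁻¹ * ‖iteratedDeriv k (fun c : ℂ => h (c • u q)) 0‖
          ≤ (k.factorial : ℝ)⁻¹ * (k.factorial * M / 2 ^ k) := by gcongr
        _ = M * (1/2) ^ k := by
          rw [one_div, inv_pow]; field_simp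
    have hM0 : 0 ≤ M * (1/2) ^ k := (norm_nonneg _).trans h3
    rw [norm_mul]
    calc ‖MvPolynomial.eval (u q) (P k)‖ * ‖w q‖ ≤ (M * (1/2) ^ k) * W :=
          mul_le_mul h3 (hW q hq) (norm_nonneg _) hM0
      _ = M * W * (1/2) ^ k := by ring
  have hgeom : Summable fun k : ℕ => M * W * (1/2 : ℝ) ^ k :=
    (summable_geometric_of_lt_one (by norm_num) (by norm_num)).mul_left _
  have key := hasSum_integral_of_dominated_convergence (μ := μ.restrict K)
    (F := fun k q => MvPolynomial.eval (u q) (P k) * w q) (f := fun q => h (u q) * w q)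
    (fun k _ => M * W * (1/2) ^ k)
    (fun k => by
      have : Continuous fun q => MvPolynomial.eval (u q) (P k) * w q :=
        ((MvPolynomial.continuous_eval (P k)).comp hu).mul hw
      exact this.aestronglyMeasurable)
    (fun k => (ae_restrict_iff' hKm).2 (Eventually.of_forall fun q hq => hbound k q hq))
    (Eventually.of_forall fun q => hgeom)
    (integrable_const _)
    (Eventually.of_forall fun q => by
      have h1 := Complex.hasSum_taylorSeries_of_entire (hdil (u q)) 0 1
      simp only [sub_zero, one_pow, one_smul] at h1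
      refine HasSum.mul_right (w q) ?_
      simpa only [hPz] using h1)
  simp only [hP] at key
  exact (hasSum_zero.unique key).symm

end Pool.Agent.MP_04e188_an
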