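import Mathlib

open MvPolynomial

set_option linter.unusedSimpArgs false

namespace Pool.Agent.MP_04e188_an

/-- A subspace of polynomials in three variables which contains `1`, the multiples of
`x² + y² + z² - 1` and all images of the three rotation fields is everything. -/
theorem submodule_eq_top_of_rot (V : Submodule ℂ (MvPolynomial (Fin 3) ℂ))
    (h1 : (1 : MvPolynomial (Fin 3) ℂ) ∈ V)
    (hr : ∀ p : MvPolynomial (Fin 3) ℂ, (X 0 ^ 2 + X 1 ^ 2 + X 2 ^ 2 - 1) * p ∈ V)
    (h12 : ∀ g : MvPolynomial (Fin 3) ℂ, X 1 * pderiv 2 g - X 2 * pderiv 1 g ∈ V)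
    (h20 : ∀ g : MvPolynomial (Fin 3) ℂ, X 2 * pderiv 0 g - X 0 * pderiv 2 g ∈ V)
    (h01 : ∀ g : MvPolynomial (Fin 3) ℂ, X 0 * pderiv 1 g - X 1 * pderiv 0 g ∈ V) :
    V = ⊤ := by
  have d00 : pderiv (0 : Fin 3) (X 0 : MvPolynomial (Fin 3) ℂ) = 1 := pderiv_X_self 0
  have d11 : pderiv (1 : Fin 3) (X 1 : MvPolynomial (Fin 3) ℂ) = 1 := pderiv_X_self 1
  have d22 : pderiv (2 : Fin 3) (X 2 : MvPolynomial (Fin 3) ℂ) = 1 := pderiv_X_self 2
  have d01 : pderiv (0 : Fin 3) (X 1 : MvPolynomial (Fin 3) ℂ) = 0 := pderiv_X_of_ne (by decide)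
  have d02 : pderiv (0 : Fin 3) (X 2 : MvPolynomial (Fin 3) ℂ) = 0 := pderiv_X_of_ne (by decide)
  have d10 : pderiv (1 : Fin 3) (X 0 : MvPolynomial (Fin 3) ℂ) = 0 := pderiv_X_of_ne (by decide)
  have d12 : pderiv (1 : Fin 3) (X 2 : MvPolynomial (Fin 3) ℂ) = 0 := pderiv_X_of_ne (by decide)
  have d20 : pderiv (2 : Fin 3) (X 0 : MvPolynomial (Fin 3) ℂ) = 0 := pderiv_X_of_ne (by decide)
  have d21 : pderiv (2 : Fin 3) (X 1 : MvPolynomial (Fin 3) ℂ) = 0 := pderiv_X_of_ne (by decide)
  -- cancelling nonzero scalars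
  have hcancel : ∀ (n : ℕ) (p : MvPolynomial (Fin 3) ℂ), ((n : MvPolynomial (Fin 3) ℂ) + 1) * p ∈ V → p ∈ V := by
    intro n p hp
    have h2 : ((n : ℂ) + 1) ≠ 0 := Nat.cast_add_one_ne_zero n
    have h3 : ((n : MvPolynomial (Fin 3) ℂ) + 1) * p = ((n : ℂ) + 1) • p := by
      rw [smul_eq_C_mul]; simp
    rw [h3] at hp
    have := V.smul_mem ((n : ℂ) + 1)⁻¹ hp
    rwa [smul_smul, inv_mul_cancel₀ h2, one_smul] at this
  have hnat : ∀ (n : ℕ) (p : MvPolynomial (Fin 3) ℂ), p ∈ V → (n : MvPolynomial (Fin 3) ℂ) * p ∈ V := by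
    intro n p hp
    have h3 : (n : MvPolynomial (Fin 3) ℂ) * p = (n : ℂ) • p := by
      rw [smul_eq_C_mul]; simp
    rw [h3]; exact V.smul_mem _ hp
  -- step A
  have hA : ∀ c : ℕ, (X 2 ^ c : MvPolynomial (Fin 3) ℂ) ∈ V := by
    intro c
    induction c using Nat.strong_induction_on with
    | _ c ih =>
      match c, ih with
      | 0, _ => simpa using h1
      | 1, _ =>
        have := h12 (X 1)
        rw [d21, d11] at this
        have := V.neg_mem this
        simpa using this
      | (c + 2), ih =>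
        have e0 := hr (X 2 ^ c)
        have e1 := h12 (X 1 * X 2 ^ (c + 1))
        have e2 := h20 (X 0 * X 2 ^ (c + 1))
        have e3 := ih c (by omega)
        simp only [Derivation.leibniz, Derivation.leibniz_pow, d00, d11, d22, d01, d02, d10, d12, d20, d21,
          smul_eq_mul, mul_zero, nsmul_eq_mul, add_zero, mul_one, zero_add, smul_zero] at e1 e2
        apply hcancel (c + 2)
        have e4 := V.add_mem (V.sub_mem (V.sub_mem (V.add_mem (hnat c _ e0) e0) e1) (V.neg_mem e2))
          (V.add_mem (hnat c _ e3) e3)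
        refine (congrArg (· ∈ V) ?_).mp e4
        push_cast
        ring
  have hB : ∀ b c : ℕ, (X 1 ^ b * X 2 ^ c : MvPolynomial (Fin 3) ℂ) ∈ V := by
    intro b
    induction b using Nat.strong_induction_on with
    | _ b ih =>
      intro c
      match b, ih with
      | 0, _ => simpa using hA c
      | 1, _ =>
        have e1 := h12 (X 2 ^ (c + 1))
        simp only [Derivation.leibniz, Derivation.leibniz_pow, d00, d11, d22, d01, d02, d10, d12, d20, d21,
          smul_eq_mul, mul_zero, nsmul_eq_mul, add_zero, mul_one, zero_add, smul_zero] at e1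
        apply hcancel c
        refine (congrArg (· ∈ V) ?_).mp e1
        push_cast
        ring
      | (b + 2), ih =>
        have e1 := h12 (X 1 ^ (b + 1) * X 2 ^ (c + 1))
        have e3 := ih b (by omega) (c + 2)
        simp only [Derivation.leibniz, Derivation.leibniz_pow, d00, d11, d22, d01, d02, d10, d12, d20, d21,
          smul_eq_mul, mul_zero, nsmul_eq_mul, add_zero, mul_one, zero_add, smul_zero] at e1
        apply hcancel c
        have e4 := V.add_mem e1 (hnat (b + 1) _ e3)
        refine (congrArg (· ∈ V) ?_).mp e4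
        push_cast
        ring
  have hC : ∀ a b c : ℕ, (X 0 ^ a * X 1 ^ b * X 2 ^ c : MvPolynomial (Fin 3) ℂ) ∈ V := by
    intro a
    induction a using Nat.strong_induction_on with
    | _ a ih =>
      intro b c
      match a, ih with
      | 0, _ => simpa using hB b c
      | 1, _ =>
        have e1 := h01 (X 1 ^ (b + 1) * X 2 ^ c)
        simp only [Derivation.leibniz, Derivation.leibniz_pow, d00, d11, d22, d01, d02, d10, d12, d20, d21,
          smul_eq_mul, mul_zero, nsmul_eq_mul, add_zero, mul_one, zero_add, smul_zero] at e1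
        apply hcancel b
        refine (congrArg (· ∈ V) ?_).mp e1
        push_cast
        ring
      | (a + 2), ih =>
        have e1 := h01 (X 0 ^ (a + 1) * X 1 ^ (b + 1) * X 2 ^ c)
        have e3 := ih a (by omega) (b + 2) c
        simp only [Derivation.leibniz, Derivation.leibniz_pow, d00, d11, d22, d01, d02, d10, d12, d20, d21,
          smul_eq_mul, mul_zero, nsmul_eq_mul, add_zero, mul_one, zero_add, smul_zero] at e1
        apply hcancel b
        have e4 := V.add_mem e1 (hnat (a + 1) _ e3)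
        refine (congrArg (· ∈ V) ?_).mp e4
        push_cast
        ring
  rw [eq_top_iff]
  intro p _
  induction p using MvPolynomial.induction_on' with
  | monomial s r =>
    rw [monomial_eq, Finsupp.prod_fintype _ _ (by simp), Fin.prod_univ_three, ← smul_eq_C_mul]
    exact V.smul_mem _ (hC _ _ _)
  | add p q hp hq => exact V.add_mem (hp trivial) (hq trivial)

/-- The derivative of a polynomial function. -/
noncomputable def dpoly {n : ℕ} (P : MvPolynomial (Fin n) ℂ) (z : Fin n → ℂ) : (Fin n → ℂ) →L[ℂ] ℂ :=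
  ∑ j, (eval z (pderiv j P)) • (ContinuousLinearMap.proj j : (Fin n → ℂ) →L[ℂ] ℂ)

theorem dpoly_apply {n : ℕ} (P : MvPolynomial (Fin n) ℂ) (z v : Fin n → ℂ) :
    dpoly P z v = ∑ j, (eval z (pderiv j P)) * v j := by
  simp [dpoly]

/-- The derivative of a polynomial function. -/
theorem hasFDerivAt_eval {n : ℕ} (P : MvPolynomial (Fin n) ℂ) (z : Fin n → ℂ) :
    HasFDerivAt (fun z : Fin n → ℂ => eval z P) (dpoly P z) z := by
  induction P using MvPolynomial.induction_on with
  | C a =>
    have h0 : dpoly (C a : MvPolynomial (Fin n) ℂ) z = 0 := by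
      ext v; simp [dpoly_apply]
    rw [h0]
    simp only [eval_C]
    exact hasFDerivAt_const (𝕜 := ℂ) a z
  | add p q hp hq =>
    have h0 : dpoly (p + q) z = dpoly p z + dpoly q z := by
      ext v; simp [dpoly_apply, add_mul, Finset.sum_add_distrib]
    rw [h0]
    simp only [map_add]
    exact hp.add hq
  | mul_X p i hp =>
    have h1 : HasFDerivAt (fun z : Fin n → ℂ => z i)
      (ContinuousLinearMap.proj i : (Fin n → ℂ) →L[ℂ] ℂ) z :=
      (ContinuousLinearMap.proj i : (Fin n → ℂ) →L[ℂ] ℂ).hasFDerivAt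
    have := hp.mul h1
    simp only [map_mul, eval_X]
    refine this.congr_fderiv ?_
    ext v
    simp only [add_apply, smul_apply, ContinuousLinearMap.proj_apply, dpoly_apply,
      smul_eq_mul, Derivation.leibniz, map_add, map_mul, eval_X, add_mul,
      Finset.sum_add_distrib, Finset.mul_sum]
    congr 1
    · rw [Finset.sum_eq_single i]
      · simp
      · intro j _ hj
        rw [pderiv_X_of_ne hj.symm]; simp
      · simp
    · refine Finset.sum_congr rfl fun j _ => ?_
      ring

end Pool.Agent.MP_04e188_an
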