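import Mathlib

open MeasureTheory Set

namespace Pool.Agent.MP_04e188_an

/-- Stokes' theorem for a map of the 2-sphere given in spherical coordinates. -/
theorem stokes_sphere {E : Type*} [NormedAddCommGroup E] [NormedSpace ℝ E]
    (u : ℝ × ℝ → E) (hu : ContDiff ℝ 2 u)
    (hper : ∀ t : ℝ, u (2 * Real.pi, t) = u (0, t))
    (h0 : ∀ s : ℝ, u (s, 0) = u (0, 0)) (hπ : ∀ s : ℝ, u (s, Real.pi) = u (0, Real.pi))
    (α : E → (E →L[ℝ] ℂ)) (hα : ∀ q, ContDiffAt ℝ 1 α (u q)) :
    ∫ q in Icc ((0 : ℝ), (0 : ℝ)) (2 * Real.pi, Real.pi),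
      ((fderiv ℝ α (u q) (fderiv ℝ u q (1, 0))) (fderiv ℝ u q (0, 1)) -
        (fderiv ℝ α (u q) (fderiv ℝ u q (0, 1))) (fderiv ℝ u q (1, 0))) = 0 := by
  set f : ℝ × ℝ → ℂ := fun q => α (u q) (fderiv ℝ u q (0, 1)) with hf
  set g : ℝ × ℝ → ℂ := fun q => - α (u q) (fderiv ℝ u q (1, 0)) with hg
  have hu1 : ContDiff ℝ 1 (fderiv ℝ u) := hu.fderiv_right (by norm_num)
  have hαu : ContDiff ℝ 1 (fun q => α (u q)) := by
    rw [contDiff_iff_contDiffAt]
    intro q
    exact (hα q).comp q ((hu.of_le (by norm_num)).contDiffAt)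
  have hfc : ContDiff ℝ 1 f := hαu.clm_apply (hu1.clm_apply contDiff_const)
  have hgc : ContDiff ℝ 1 g := (hαu.clm_apply (hu1.clm_apply contDiff_const)).neg
  have hud : ∀ q, HasFDerivAt u (fderiv ℝ u q) q := fun q =>
    ((hu.differentiable (by norm_num)) q).hasFDerivAt
  have hu1d : ∀ q, HasFDerivAt (fderiv ℝ u) (fderiv ℝ (fderiv ℝ u) q) q := fun q =>
    ((hu1.differentiable (by norm_num)) q).hasFDerivAt
  have hαud : ∀ q, HasFDerivAt (fun q => α (u q)) ((fderiv ℝ α (u q)).comp (fderiv ℝ u q)) q :=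
    fun q => (((hα q).differentiableAt (by norm_num)).hasFDerivAt).comp q (hud q)
  have hdir : ∀ (v : ℝ × ℝ) (q : ℝ × ℝ), HasFDerivAt (fun q => fderiv ℝ u q v)
      ((fderiv ℝ (fderiv ℝ u) q).flip v) q := by
    intro v q
    have := (hu1d q).clm_apply (hasFDerivAt_const v q)
    simpa using this
  have hfd : ∀ q w, fderiv ℝ f q w = (fderiv ℝ α (u q) (fderiv ℝ u q w)) (fderiv ℝ u q (0, 1)) +
      α (u q) (fderiv ℝ (fderiv ℝ u) q w (0, 1)) := by
    intro q w
    have := ((hαud q).clm_apply (hdir (0, 1) q)).fderiv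
    rw [hf, this]
    simp [add_comm]
  have hgd : ∀ q w, fderiv ℝ g q w = - ((fderiv ℝ α (u q) (fderiv ℝ u q w)) (fderiv ℝ u q (1, 0)) +
      α (u q) (fderiv ℝ (fderiv ℝ u) q w (1, 0))) := by
    intro q w
    have : HasFDerivAt g _ q := ((hαud q).clm_apply (hdir (1, 0) q)).neg
    rw [this.fderiv]
    simp [add_comm]
  have hsymm : ∀ q, fderiv ℝ (fderiv ℝ u) q (1, 0) (0, 1) = fderiv ℝ (fderiv ℝ u) q (0, 1) (1, 0) := by
    intro q
    exact (hu.contDiffAt.isSymmSndFDerivAt (by simp)) (1, 0) (0, 1)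
  have key := integral_divergence_prod_Icc_of_hasFDerivAt_off_countable_of_le f g
    (fderiv ℝ f) (fderiv ℝ g) ((0 : ℝ), (0 : ℝ)) (2 * Real.pi, Real.pi)
    ⟨by positivity, Real.pi_pos.le⟩ ∅ countable_empty hfc.continuous.continuousOn
    hgc.continuous.continuousOn
    (fun q _ => ((hfc.differentiable (by norm_num)) q).hasFDerivAt)
    (fun q _ => ((hgc.differentiable (by norm_num)) q).hasFDerivAt)
    (by
      apply Continuous.integrableOn_Icc
      exact ((hfc.continuous_fderiv (by norm_num)).clm_apply continuous_const).add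
        ((hgc.continuous_fderiv (by norm_num)).clm_apply continuous_const))
  have hint : ∀ q, fderiv ℝ f q (1, 0) + fderiv ℝ g q (0, 1) =
      ((fderiv ℝ α (u q) (fderiv ℝ u q (1, 0))) (fderiv ℝ u q (0, 1)) -
        (fderiv ℝ α (u q) (fderiv ℝ u q (0, 1))) (fderiv ℝ u q (1, 0))) := by
    intro q
    rw [hfd, hgd, hsymm]
    ring
  simp only [hint] at key
  rw [key]
  -- boundary terms
  have hderiv1 : ∀ s t : ℝ, HasDerivAt (fun s => u (s, t)) (fderiv ℝ u (s, t) (1, 0)) s := by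
    intro s t
    have h1 : HasDerivAt (fun s : ℝ => ((s, t) : ℝ × ℝ)) (1, 0) s :=
      (hasDerivAt_id s).prodMk (hasDerivAt_const s t)
    exact (hud (s, t)).comp_hasDerivAt s h1
  have hderiv2 : ∀ s t : ℝ, HasDerivAt (fun t => u (s, t)) (fderiv ℝ u (s, t) (0, 1)) t := by
    intro s t
    have h1 : HasDerivAt (fun t : ℝ => ((s, t) : ℝ × ℝ)) (0, 1) t :=
      (hasDerivAt_const t s).prodMk (hasDerivAt_id t)
    exact (hud (s, t)).comp_hasDerivAt t h1
  have hb0 : ∀ s, g (s, 0) = 0 := by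
    intro s
    have h1 := hderiv1 s 0
    have h2 : (fun s : ℝ => u (s, 0)) = fun _ => u (0, 0) := funext h0
    rw [h2] at h1
    have h3 := h1.unique (hasDerivAt_const s _)
    simp only [hg, h3, map_zero, neg_zero]
  have hbπ : ∀ s, g (s, Real.pi) = 0 := by
    intro s
    have h1 := hderiv1 s Real.pi
    have h2 : (fun s : ℝ => u (s, Real.pi)) = fun _ => u (0, Real.pi) := funext hπ
    rw [h2] at h1
    have h3 := h1.unique (hasDerivAt_const s _)
    simp only [hg, h3, map_zero, neg_zero]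
  have hbp : ∀ t, f (2 * Real.pi, t) = f (0, t) := by
    intro t
    have h1 := hderiv2 (2 * Real.pi) t
    have h2 : (fun t : ℝ => u (2 * Real.pi, t)) = fun t => u (0, t) := funext hper
    rw [h2] at h1
    have h3 := h1.unique (hderiv2 0 t)
    simp only [hf, h3, hper]
  simp only [hb0, hbπ, hbp]
  simp

end Pool.Agent.MP_04e188_an
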