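import Mathlib
import Pool.Agent.MP_04e188_an.Stokes
import Pool.Agent.MP_04e188_an.Entire
import Pool.Agent.MP_04e188_an.SpherePoly
import Pool.Agent.MP_04e188_an.Beta

open Set Filter Topology MeasureTheory

namespace Pool.Agent.MP_04e188_an

/-- spherical coordinates on the real sphere inside `ℂ^3` -/
noncomputable def sph (q : ℝ × ℝ) : Fin 3 → ℂ :=
  ![((Real.cos q.1 * Real.sin q.2 : ℝ) : ℂ), ((Real.sin q.1 * Real.sin q.2 : ℝ) : ℂ),
    ((Real.cos q.2 : ℝ) : ℂ)]

lemma sph0 (q : ℝ × ℝ) : sph q 0 = ((Real.cos q.1 * Real.sin q.2 : ℝ) : ℂ) := rfl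
lemma sph1 (q : ℝ × ℝ) : sph q 1 = ((Real.sin q.1 * Real.sin q.2 : ℝ) : ℂ) := rfl
lemma sph2 (q : ℝ × ℝ) : sph q 2 = ((Real.cos q.2 : ℝ) : ℂ) := rfl

lemma contDiff_sph : ContDiff ℝ 2 sph := by
  rw [contDiff_pi]
  have h : ContDiff ℝ 2 (fun x : ℝ => (x : ℂ)) := Complex.ofRealCLM.contDiff
  intro i
  fin_cases i
  · exact h.comp ((Real.contDiff_cos.comp contDiff_fst).mul (Real.contDiff_sin.comp contDiff_snd))
  · exact h.comp ((Real.contDiff_sin.comp contDiff_fst).mul (Real.contDiff_sin.comp contDiff_snd))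
  · exact h.comp (Real.contDiff_cos.comp contDiff_snd)

lemma hasFDerivAt_sph (q : ℝ × ℝ) : HasFDerivAt sph (fderiv ℝ sph q) q :=
  ((contDiff_sph.differentiable (by norm_num)) q).hasFDerivAt

lemma fderiv_sph_fst (q : ℝ × ℝ) : fderiv ℝ sph q (1, 0) =
    ![((-Real.sin q.1 * Real.sin q.2 : ℝ) : ℂ), ((Real.cos q.1 * Real.sin q.2 : ℝ) : ℂ), 0] := by
  have h1 : HasDerivAt (fun s : ℝ => ((s, q.2) : ℝ × ℝ)) (1, 0) q.1 :=
    (hasDerivAt_id q.1).prodMk (hasDerivAt_const q.1 q.2)
  have h2 : HasDerivAt (fun s : ℝ => sph (s, q.2)) (fderiv ℝ sph q (1, 0)) q.1 := by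
    have h3 : HasFDerivAt sph (fderiv ℝ sph q) ((fun s : ℝ => ((s, q.2) : ℝ × ℝ)) q.1) :=
      hasFDerivAt_sph q
    exact h3.comp_hasDerivAt q.1 h1
  refine h2.unique ?_
  rw [hasDerivAt_pi]
  intro i
  fin_cases i
  · exact ((Real.hasDerivAt_cos q.1).mul_const (Real.sin q.2)).ofReal_comp
  · exact ((Real.hasDerivAt_sin q.1).mul_const (Real.sin q.2)).ofReal_comp
  · change HasDerivAt (fun _ : ℝ => ((Real.cos q.2 : ℝ) : ℂ)) 0 q.1
    exact hasDerivAt_const q.1 _

lemma fderiv_sph_snd (q : ℝ × ℝ) : fderiv ℝ sph q (0, 1) =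
    ![((Real.cos q.1 * Real.cos q.2 : ℝ) : ℂ), ((Real.sin q.1 * Real.cos q.2 : ℝ) : ℂ),
      ((-Real.sin q.2 : ℝ) : ℂ)] := by
  have h1 : HasDerivAt (fun t : ℝ => ((q.1, t) : ℝ × ℝ)) (0, 1) q.2 :=
    (hasDerivAt_const q.2 q.1).prodMk (hasDerivAt_id q.2)
  have h2 : HasDerivAt (fun t : ℝ => sph (q.1, t)) (fderiv ℝ sph q (0, 1)) q.2 :=
    (hasFDerivAt_sph (q.1, q.2)).comp_hasDerivAt q.2 h1
  refine h2.unique ?_
  rw [hasDerivAt_pi]
  intro i
  fin_cases i
  · exact ((Real.hasDerivAt_sin q.2).const_mul (Real.cos q.1)).ofReal_comp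
  · exact ((Real.hasDerivAt_sin q.2).const_mul (Real.sin q.1)).ofReal_comp
  · exact (Real.hasDerivAt_cos q.2).ofReal_comp

lemma dtm_sph (q : ℝ × ℝ) : dtm (sph q) (fderiv ℝ sph q (1, 0)) (fderiv ℝ sph q (0, 1)) =
    ((-Real.sin q.2 : ℝ) : ℂ) := by
  rw [fderiv_sph_fst, fderiv_sph_snd]
  simp only [dtm, sph0, sph1, sph2, Matrix.cons_val_zero, Matrix.cons_val_one, Matrix.cons_val]
  have h1 : (Complex.sin q.1) ^ 2 + (Complex.cos q.1) ^ 2 = 1 := Complex.sin_sq_add_cos_sq _
  have h2 : (Complex.sin q.2) ^ 2 + (Complex.cos q.2) ^ 2 = 1 := Complex.sin_sq_add_cos_sq _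
  push_cast
  linear_combination (-(Complex.sin q.2) ^ 3 - Complex.sin q.2 * (Complex.cos q.2) ^ 2) * h1
    - Complex.sin q.2 * h2

/-- The real sphere in the complex quadric. -/
def rS : Set (Fin 3 → ℂ) := {x | dt x x = 1 ∧ ∀ i, (x i).im = 0}

lemma sph_mem (q : ℝ × ℝ) : sph q ∈ rS := by
  refine ⟨?_, ?_⟩
  · simp only [dt, sph0, sph1, sph2]
    have h1 : (Complex.sin q.1) ^ 2 + (Complex.cos q.1) ^ 2 = 1 := Complex.sin_sq_add_cos_sq _
    have h2 : (Complex.sin q.2) ^ 2 + (Complex.cos q.2) ^ 2 = 1 := Complex.sin_sq_add_cos_sq _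
    push_cast
    linear_combination ((Complex.sin q.2) ^ 2) * h1 + h2
  · intro i
    fin_cases i
    · exact Complex.ofReal_im _
    · exact Complex.ofReal_im _
    · exact Complex.ofReal_im _

/-- off the real sphere, `1 - |z|^4` does not vanish on the quadric -/
lemma one_sub_rho_sq_ne {z : Fin 3 → ℂ} (hz : dt z z = 1) (hzS : z ∉ rS) :
    1 - dt z (cj z) ^ 2 ≠ 0 := by
  have h1 : dt z (cj z) = (((z 0).re ^ 2 + (z 0).im ^ 2 + (z 1).re ^ 2 + (z 1).im ^ 2 +
      (z 2).re ^ 2 + (z 2).im ^ 2 : ℝ) : ℂ) := by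
    have h4 : ∀ w : ℂ, w * starRingEnd ℂ w = ((w.re ^ 2 + w.im ^ 2 : ℝ) : ℂ) := by
      intro w
      rw [Complex.mul_conj, Complex.normSq_apply]
      congr 1; ring
    simp only [dt, cj, h4]
    push_cast
    ring
  have h2 : (z 0).re ^ 2 + (z 1).re ^ 2 + (z 2).re ^ 2 -
      ((z 0).im ^ 2 + (z 1).im ^ 2 + (z 2).im ^ 2) = 1 := by
    have := congrArg Complex.re hz
    simp [dt] at this
    linarith
  have h3 : 0 < (z 0).im ^ 2 + (z 1).im ^ 2 + (z 2).im ^ 2 := by
    by_contra h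
    apply hzS
    refine ⟨hz, ?_⟩
    have h0 : (z 0).im = 0 := by nlinarith [sq_nonneg (z 0).im, sq_nonneg (z 1).im, sq_nonneg (z 2).im]
    have h1 : (z 1).im = 0 := by nlinarith [sq_nonneg (z 0).im, sq_nonneg (z 1).im, sq_nonneg (z 2).im]
    have h2 : (z 2).im = 0 := by nlinarith [sq_nonneg (z 0).im, sq_nonneg (z 1).im, sq_nonneg (z 2).im]
    intro i
    fin_cases i
    · exact h0
    · exact h1
    · exact h2
  rw [h1]
  norm_cast
  nlinarith

lemma tangent_of_dt_one {u : ℝ × ℝ → (Fin 3 → ℂ)} (hu : Differentiable ℝ u)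
    (h : ∀ q, dt (u q) (u q) = 1) (q v : ℝ × ℝ) : dt (u q) (fderiv ℝ u q v) = 0 := by
  have hc : HasDerivAt (fun r : ℝ => q + r • v) v 0 := by
    have h3 : HasDerivAt (fun c : ℝ => c • v) ((1 : ℝ) • v) 0 := (hasDerivAt_id (0 : ℝ)).smul_const v
    rw [one_smul] at h3
    exact h3.const_add q
  have hq : HasFDerivAt u (fderiv ℝ u q) (q + (0 : ℝ) • v) := by
    rw [zero_smul, add_zero]; exact (hu q).hasFDerivAt
  have h1 := hq.comp_hasDerivAt (0 : ℝ) hc
  have h2 := hasDerivAt_dt h1 h1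
  have h3 : (fun s => dt ((u ∘ fun r : ℝ => q + r • v) s) ((u ∘ fun r : ℝ => q + r • v) s)) = fun _ => 1 := by
    funext s; exact h _
  rw [h3] at h2
  have h4 := h2.unique (hasDerivAt_const _ _)
  simp only [Function.comp_apply, zero_smul, add_zero] at h4
  have h5 : dt (fderiv ℝ u q v) (u q) = dt (u q) (fderiv ℝ u q v) := by
    simp only [dt]; ring
  rw [h5] at h4
  have h6 : (2 : ℂ) * dt (u q) (fderiv ℝ u q v) = 0 := by linear_combination h4
  simpa using h6

/-- Pullback of the volume form under a linear map. -/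
lemma pull_dtm (g : Fin 3 → ℂ) (M : (Fin 3 → ℂ) →L[ℂ] (Fin 3 → ℂ)) {z a b : Fin 3 → ℂ}
    (hz : dt z z = 1) (ha : dt z a = 0) (hb : dt z b = 0) :
    dtm g (M a) (M b) = (z 0 * dtm g (M (Pi.single 1 1)) (M (Pi.single 2 1)) +
      z 1 * dtm g (M (Pi.single 2 1)) (M (Pi.single 0 1)) +
      z 2 * dtm g (M (Pi.single 0 1)) (M (Pi.single 1 1))) * dtm z a b := by
  have hM : ∀ v : Fin 3 → ℂ, M v = v 0 • M (Pi.single 0 1) + v 1 • M (Pi.single 1 1) +
      v 2 • M (Pi.single 2 1) := by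
    intro v
    have h3 : v = v 0 • (Pi.single 0 (1 : ℂ) : Fin 3 → ℂ) + v 1 • (Pi.single 1 (1 : ℂ) : Fin 3 → ℂ) +
        v 2 • (Pi.single 2 (1 : ℂ) : Fin 3 → ℂ) := by
      funext j
      fin_cases j <;> simp
    conv_lhs => rw [h3]
    simp only [map_add, map_smul]
  have c0 := cross_eq hz ha hb 0
  have c1 := cross_eq hz ha hb 1
  have c2 := cross_eq hz ha hb 2
  rw [cr0] at c0
  rw [cr1] at c1
  rw [cr2] at c2
  rw [hM a, hM b]
  generalize M (Pi.single 0 1) = e0
  generalize M (Pi.single 1 1) = e1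
  generalize M (Pi.single 2 1) = e2
  have h4 : dtm g (a 0 • e0 + a 1 • e1 + a 2 • e2) (b 0 • e0 + b 1 • e1 + b 2 • e2) =
      (a 1 * b 2 - a 2 * b 1) * dtm g e1 e2 + (a 2 * b 0 - a 0 * b 2) * dtm g e2 e0 +
      (a 0 * b 1 - a 1 * b 0) * dtm g e0 e1 := by
    simp only [dtm, Pi.add_apply, Pi.smul_apply, smul_eq_mul]
    ring
  rw [h4, c0, c1, c2]
  ring

/-- The core non-displaceability theorem. -/
theorem core (F G : (Fin 3 → ℂ) → (Fin 3 → ℂ)) (hF : Differentiable ℂ F) (hG : Differentiable ℂ G)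
    (hFX : ∀ x ∈ rS, dt (F x) (F x) = 1) (hGF : ∀ x ∈ rS, G (F x) = x) :
    ∃ x ∈ rS, F x ∈ rS := by
  by_contra hcon
  push Not at hcon
  set u : ℝ × ℝ → (Fin 3 → ℂ) := fun q => F (sph q) with hu_def
  have huC : ContDiff ℝ 2 u := ((contDiff_of_differentiable 2 hF).restrict_scalars ℝ).comp contDiff_sph
  have hud : Differentiable ℝ u := huC.differentiable (by norm_num)
  have hu1 : ∀ q, dt (u q) (u q) = 1 := fun q => hFX _ (sph_mem q)
  have huS : ∀ q, u q ∉ rS := fun q => hcon _ (sph_mem q)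
  have hper : ∀ t : ℝ, u (2 * Real.pi, t) = u (0, t) := by
    intro t
    simp only [hu_def]
    congr 1
    simp [sph]
  have h0 : ∀ s : ℝ, u (s, 0) = u (0, 0) := by
    intro s
    simp only [hu_def]
    congr 1
    simp [sph]
  have hπ : ∀ s : ℝ, u (s, Real.pi) = u (0, Real.pi) := by
    intro s
    simp only [hu_def]
    congr 1
    simp [sph]
  have htan : ∀ q v, dt (u q) (fderiv ℝ u q v) = 0 := tangent_of_dt_one hud hu1
  set K : Set (ℝ × ℝ) := Icc ((0 : ℝ), (0 : ℝ)) (2 * Real.pi, Real.pi) with hK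
  have hKc : IsCompact K := isCompact_Icc
  set w : ℝ × ℝ → ℂ := fun q => dtm (u q) (fderiv ℝ u q (1, 0)) (fderiv ℝ u q (0, 1)) with hw
  have hfc : ∀ v, Continuous fun q => fderiv ℝ u q v := fun v =>
    (huC.continuous_fderiv (by norm_num)).clm_apply continuous_const
  have hwc : Continuous w := by
    have hu' : ∀ i, Continuous fun q => u q i := fun i => (continuous_apply i).comp huC.continuous
    have hv' : ∀ v i, Continuous fun q => fderiv ℝ u q v i := fun v i =>
      (continuous_apply i).comp (hfc v)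
    simp only [hw, dtm]
    exact (((hu' 0).mul (((hv' _ 1).mul (hv' _ 2)).sub ((hv' _ 2).mul (hv' _ 1)))).add
      ((hu' 1).mul (((hv' _ 2).mul (hv' _ 0)).sub ((hv' _ 0).mul (hv' _ 2))))).add
      ((hu' 2).mul (((hv' _ 0).mul (hv' _ 1)).sub ((hv' _ 1).mul (hv' _ 0))))
  have hPc : ∀ P : MvPolynomial (Fin 3) ℂ, Continuous fun q => MvPolynomial.eval (u q) P * w q := fun P =>
    ((MvPolynomial.continuous_eval P).comp huC.continuous).mul hwc
  have hPi : ∀ P : MvPolynomial (Fin 3) ℂ, IntegrableOn (fun q => MvPolynomial.eval (u q) P * w q) K := fun P =>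
    (hPc P).continuousOn.integrableOn_compact hKc
  -- the space of polynomials killed
  let V : Submodule ℂ (MvPolynomial (Fin 3) ℂ) :=
    { carrier := {P | ∫ q in K, MvPolynomial.eval (u q) P * w q = 0}
      add_mem' := by
        intro P Q hP hQ
        change ∫ q in K, MvPolynomial.eval (u q) (P + Q) * w q = 0
        simp only [map_add, add_mul]
        rw [integral_add (hPi P) (hPi Q)]
        have h1 : ∫ q in K, MvPolynomial.eval (u q) P * w q = 0 := hP
        have h2 : ∫ q in K, MvPolynomial.eval (u q) Q * w q = 0 := hQ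
        rw [h1, h2, add_zero]
      zero_mem' := by simp
      smul_mem' := by
        intro c P hP
        change ∫ q in K, MvPolynomial.eval (u q) (c • P) * w q = 0
        have h1 : ∫ q in K, MvPolynomial.eval (u q) P * w q = 0 := hP
        simp only [MvPolynomial.smul_eval, mul_assoc]
        rw [integral_const_mul, h1, mul_zero] }
  have hVmem : ∀ P, P ∈ V ↔ ∫ q in K, MvPolynomial.eval (u q) P * w q = 0 := fun P => Iff.rfl
  -- rotations
  have hrot : ∀ (g : MvPolynomial (Fin 3) ℂ) (i : Fin 3), ∫ q in K,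
      (dpoly g (u q) (fderiv ℝ u q (1, 0)) * (fderiv ℝ u q (0, 1)) i -
        dpoly g (u q) (fderiv ℝ u q (0, 1)) * (fderiv ℝ u q (1, 0)) i) = 0 := by
    intro g i
    have hgc : ContDiff ℝ 1 (fun z : Fin 3 → ℂ => MvPolynomial.eval z g) := by
      have h1 : Differentiable ℂ (fun z : Fin 3 → ℂ => MvPolynomial.eval z g) := fun z =>
        (hasFDerivAt_eval g z).differentiableAt
      exact (contDiff_of_differentiable 1 h1).restrict_scalars ℝ
    have hα : ∀ z, ContDiffAt ℝ 1 (fun z : Fin 3 → ℂ => MvPolynomial.eval z g • prL i) z := fun z =>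
      contDiffAt_smul_const hgc.contDiffAt (prL i)
    have hst := stokes_sphere u huC hper h0 hπ (fun z : Fin 3 → ℂ => MvPolynomial.eval z g • prL i)
      (fun q => hα (u q))
    have hfd : ∀ z a b, (fderiv ℝ (fun z : Fin 3 → ℂ => MvPolynomial.eval z g • prL i) z a) b =
        dpoly g z a * b i := by
      intro z a b
      have h1 : HasFDerivAt (fun z : Fin 3 → ℂ => MvPolynomial.eval z g • prL i)
          (fderiv ℝ (fun z : Fin 3 → ℂ => MvPolynomial.eval z g • prL i) z) z :=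
        ((hα z).differentiableAt (by norm_num)).hasFDerivAt
      have h2 : HasFDerivAt (fun z : Fin 3 → ℂ => (MvPolynomial.eval z g • prL i) b) _ z :=
        (ContinuousLinearMap.apply ℝ ℂ b).hasFDerivAt.comp z h1
      have h3 : HasFDerivAt (fun z : Fin 3 → ℂ => MvPolynomial.eval z g * b i)
          ((b i) • (dpoly g z).restrictScalars ℝ) z := by
        have := ((hasFDerivAt_eval g z).restrictScalars ℝ).mul_const (b i)
        exact this
      have h4 := h2.unique h3
      have h5 := congrArg (fun L : (Fin 3 → ℂ) →L[ℝ] ℂ => L a) h4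
      simp at h5
      rw [h5]; ring
    simp only [hfd] at hst
    exact hst
  have hcr : ∀ q i, cr (fderiv ℝ u q (1, 0)) (fderiv ℝ u q (0, 1)) i = w q * u q i := fun q i =>
    cross_eq (hu1 q) (htan q _) (htan q _) i
  have hV : V = ⊤ := by
    apply submodule_eq_top_of_rot
    · -- 1 ∈ V, by the primitive β
      rw [hVmem]
      have hst := stokes_sphere u huC hper h0 hπ beta
        (fun q => contDiffAt_beta (one_sub_rho_sq_ne (hu1 q) (huS q)))
      rw [← hst]
      refine setIntegral_congr_fun measurableSet_Icc fun q _ => ?_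
      simp only [map_one, one_mul]
      exact (dbeta_eq (hu1 q) (one_sub_rho_sq_ne (hu1 q) (huS q)) (htan q _) (htan q _)).symm
    · intro p
      rw [hVmem]
      have : ∀ q, MvPolynomial.eval (u q) ((MvPolynomial.X 0 ^ 2 + MvPolynomial.X 1 ^ 2 +
          MvPolynomial.X 2 ^ 2 - 1) * p) * w q = 0 := by
        intro q
        have h1 := hu1 q
        simp only [dt] at h1
        simp only [map_mul, map_sub, map_add, map_pow, MvPolynomial.eval_X, map_one]
        have h2 : u q 0 ^ 2 + u q 1 ^ 2 + u q 2 ^ 2 - 1 = 0 := by linear_combination h1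
        rw [h2]; ring
      simp only [this, integral_zero]
    · intro g
      rw [hVmem, ← hrot g 0]
      refine setIntegral_congr_fun measurableSet_Icc fun q _ => ?_
      have c1 := hcr q 1
      have c2 := hcr q 2
      rw [cr1] at c1
      rw [cr2] at c2
      simp only [dpoly_apply, Fin.sum_univ_three, map_sub, map_mul, MvPolynomial.eval_X]
      linear_combination (-(MvPolynomial.eval (u q) (MvPolynomial.pderiv 2 g))) * c1 +
        MvPolynomial.eval (u q) (MvPolynomial.pderiv 1 g) * c2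
    · intro g
      rw [hVmem, ← hrot g 1]
      refine setIntegral_congr_fun measurableSet_Icc fun q _ => ?_
      have c0 := hcr q 0
      have c2 := hcr q 2
      rw [cr0] at c0
      rw [cr2] at c2
      simp only [dpoly_apply, Fin.sum_univ_three, map_sub, map_mul, MvPolynomial.eval_X]
      linear_combination (-(MvPolynomial.eval (u q) (MvPolynomial.pderiv 0 g))) * c2 +
        MvPolynomial.eval (u q) (MvPolynomial.pderiv 2 g) * c0
    · intro g
      rw [hVmem, ← hrot g 2]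
      refine setIntegral_congr_fun measurableSet_Icc fun q _ => ?_
      have c0 := hcr q 0
      have c1 := hcr q 1
      rw [cr0] at c0
      rw [cr1] at c1
      simp only [dpoly_apply, Fin.sum_univ_three, map_sub, map_mul, MvPolynomial.eval_X]
      linear_combination (-(MvPolynomial.eval (u q) (MvPolynomial.pderiv 1 g))) * c0 +
        MvPolynomial.eval (u q) (MvPolynomial.pderiv 0 g) * c1
  have hpoly : ∀ P : MvPolynomial (Fin 3) ℂ, ∫ q in K, MvPolynomial.eval (u q) P * w q = 0 := by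
    intro P
    have : P ∈ V := by rw [hV]; trivial
    exact this
  -- the pulled back form
  let J : (Fin 3 → ℂ) → ℂ := fun z =>
    z 0 * dtm (G z) (fderiv ℂ G z (Pi.single 1 1)) (fderiv ℂ G z (Pi.single 2 1)) +
      z 1 * dtm (G z) (fderiv ℂ G z (Pi.single 2 1)) (fderiv ℂ G z (Pi.single 0 1)) +
      z 2 * dtm (G z) (fderiv ℂ G z (Pi.single 0 1)) (fderiv ℂ G z (Pi.single 1 1))
  have hJ : Differentiable ℂ J := by
    have hz : ∀ i : Fin 3, Differentiable ℂ fun z : Fin 3 → ℂ => z i := fun i =>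
      (ContinuousLinearMap.proj i : (Fin 3 → ℂ) →L[ℂ] ℂ).differentiable
    have hg : ∀ i : Fin 3, Differentiable ℂ fun z : Fin 3 → ℂ => G z i := fun i =>
      (hz i).comp hG
    have hd : ∀ (v : Fin 3 → ℂ) (i : Fin 3), Differentiable ℂ fun z : Fin 3 → ℂ => fderiv ℂ G z v i :=
      fun v i => (hz i).comp (differentiable_fderiv_apply hG v)
    have hdtm : ∀ v v' : Fin 3 → ℂ, Differentiable ℂ fun z =>
        dtm (G z) (fderiv ℂ G z v) (fderiv ℂ G z v') := by
      intro v v'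
      simp only [dtm]
      exact (((hg 0).mul (((hd _ 1).mul (hd _ 2)).sub ((hd _ 2).mul (hd _ 1)))).add
        ((hg 1).mul (((hd _ 2).mul (hd _ 0)).sub ((hd _ 0).mul (hd _ 2))))).add
        ((hg 2).mul (((hd _ 0).mul (hd _ 1)).sub ((hd _ 1).mul (hd _ 0))))
    exact (((hz 0).mul (hdtm _ _)).add ((hz 1).mul (hdtm _ _))).add ((hz 2).mul (hdtm _ _))
  have hfinal := integral_entire_eq_zero volume K hKc measurableSet_Icc u huC.continuous w hwc hpoly J hJ
  have hchain : ∀ q v, fderiv ℂ G (u q) (fderiv ℝ u q v) = fderiv ℝ sph q v := by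
    intro q v
    have h1 : HasFDerivAt G ((fderiv ℂ G (u q)).restrictScalars ℝ) (u q) :=
      ((hG (u q)).hasFDerivAt).restrictScalars ℝ
    have h2 := h1.comp q ((hud q).hasFDerivAt)
    have h3 : G ∘ u = sph := by
      funext q; exact hGF _ (sph_mem q)
    rw [h3] at h2
    rw [h2.fderiv]
    rfl
  have hJw : ∀ q, J (u q) * w q = ((-Real.sin q.2 : ℝ) : ℂ) := by
    intro q
    have h1 := pull_dtm (G (u q)) (fderiv ℂ G (u q)) (hu1 q) (htan q (1, 0)) (htan q (0, 1))
    rw [hchain, hchain] at h1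
    have h2 : G (u q) = sph q := hGF _ (sph_mem q)
    rw [← dtm_sph]
    simp only [J, hw]
    rw [← h1, h2]
  simp only [hJw] at hfinal
  have h6 : ∫ q in K, ((-Real.sin q.2 : ℝ) : ℂ) = ((∫ q in K, -Real.sin q.2 : ℝ) : ℂ) := integral_ofReal
  rw [h6, Complex.ofReal_eq_zero, hK, ← Icc_prod_Icc, Measure.volume_eq_prod] at hfinal
  have h5 := setIntegral_prod_mul (μ := (volume : Measure ℝ)) (ν := (volume : Measure ℝ))
    (fun _ : ℝ => (1 : ℝ)) (fun t : ℝ => -Real.sin t) (Icc 0 (2 * Real.pi)) (Icc 0 Real.pi)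
  simp only [one_mul] at h5
  rw [h5] at hfinal
  rw [integral_neg, integral_Icc_eq_integral_Ioc (f := Real.sin),
    ← intervalIntegral.integral_of_le Real.pi_pos.le, integral_sin] at hfinal
  simp [Real.pi_pos.le, Real.pi_ne_zero] at hfinal

end Pool.Agent.MP_04e188_an
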