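import Mathlib

set_option linter.unusedSimpArgs false

namespace Pool.Agent.MP_04e188_an

section

variable {A : Type*} [CommRing A] [Algebra ℂ A]

lemma lie_smul_left (f : A) (D E : Derivation ℂ A A) : ⁅f • D, E⁆ = f • ⁅D, E⁆ - (E f) • D := by
  ext g
  simp only [Derivation.commutator_apply, Derivation.smul_apply, Derivation.sub_apply, smul_eq_mul,
    Derivation.leibniz]
  ring

lemma lie_smul_right (f : A) (D E : Derivation ℂ A A) : ⁅D, f • E⁆ = f • ⁅D, E⁆ + (D f) • E := by
  ext g
  simp only [Derivation.commutator_apply, Derivation.smul_apply, Derivation.add_apply, smul_eq_mul,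
    Derivation.leibniz, Derivation.map_smul]
  ring

lemma der_two (D : Derivation ℂ A A) : D (2 : A) = 0 := by simpa using D.map_natCast 2

/-- A subspace containing `1` and stable under multiplication by generators is everything. -/
lemma eq_top_of_mul_mem (S : Submodule ℂ A) (h1 : (1 : A) ∈ S) (s : Set A)
    (hs : Algebra.adjoin ℂ s = ⊤) (hmul : ∀ g ∈ s, ∀ f ∈ S, g * f ∈ S) : S = ⊤ := by
  have key : ∀ g : A, ∀ f ∈ S, g * f ∈ S := by
    intro g
    have hg : g ∈ Algebra.adjoin ℂ s := by rw [hs]; trivial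
    induction hg using Algebra.adjoin_induction with
    | mem g hg => exact hmul g hg
    | algebraMap r => intro f hf; rw [← Algebra.smul_def]; exact S.smul_mem r hf
    | add a b _ _ ha hb => intro f hf; rw [add_mul]; exact S.add_mem (ha f hf) (hb f hf)
    | mul a b _ _ ha hb => intro f hf; rw [mul_assoc]; exact ha _ (hb f hf)
  rw [eq_top_iff]
  intro g _
  simpa using key g 1 h1

/-- The data of the quadric `xy = 1 - z²` with its three basic vector fields. -/
structure QData (A : Type*) [CommRing A] [Algebra ℂ A] where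
  (x y z : A)
  (a b h : Derivation ℂ A A)
  hxyz : x * y = 1 - z ^ 2
  hgen : Algebra.adjoin ℂ ({x, y, z} : Set A) = ⊤
  hax : a x = 0
  hay : a y = -(2 * z)
  haz : a z = x
  hbx : b x = -(2 * z)
  hby : b y = 0
  hbz : b z = y
  hhx : h x = x
  hhy : h y = -y
  hhz : h z = 0

namespace QData

variable (Q : QData A)

include Q in
lemma der_ext {D E : Derivation ℂ A A} (h1 : D Q.x = E Q.x) (h2 : D Q.y = E Q.y) (h3 : D Q.z = E Q.z) :
    D = E := by
  apply Derivation.ext_of_adjoin_eq_top _ Q.hgen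
  rintro g (rfl | rfl | rfl)
  · exact h1
  · exact h2
  · exact h3

lemma lie_ab : ⁅Q.a, Q.b⁆ = -((2 : A) • Q.h) := by
  apply Q.der_ext <;>
  simp only [Derivation.commutator_apply, Derivation.neg_apply, Derivation.smul_apply, Q.hax, Q.hay, Q.haz,
    Q.hbx, Q.hby, Q.hbz, Q.hhx, Q.hhy, Q.hhz, map_neg, Derivation.leibniz, map_zero, smul_eq_mul, der_two] <;> ring

lemma lie_ha : ⁅Q.h, Q.a⁆ = Q.a := by
  apply Q.der_ext <;>
  simp only [Derivation.commutator_apply, Derivation.neg_apply, Derivation.smul_apply, Q.hax, Q.hay, Q.haz,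
    Q.hbx, Q.hby, Q.hbz, Q.hhx, Q.hhy, Q.hhz, map_neg, Derivation.leibniz, map_zero, smul_eq_mul, der_two] <;> ring

lemma lie_hb : ⁅Q.h, Q.b⁆ = -Q.b := by
  apply Q.der_ext <;>
  simp only [Derivation.commutator_apply, Derivation.neg_apply, Derivation.smul_apply, Q.hax, Q.hay, Q.haz,
    Q.hbx, Q.hby, Q.hbz, Q.hhx, Q.hhy, Q.hhz, map_neg, Derivation.leibniz, map_zero, smul_eq_mul, der_two] <;> ring

lemma rel_abh : Q.y • Q.a - Q.x • Q.b = (2 * Q.z) • Q.h := by
  apply Q.der_ext <;>
  simp only [Derivation.sub_apply, Derivation.neg_apply, Derivation.smul_apply, Q.hax, Q.hay, Q.haz,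
    Q.hbx, Q.hby, Q.hbz, Q.hhx, Q.hhy, Q.hhz, smul_eq_mul] <;> ring

/-- every derivation is a combination of the three basic ones -/
lemma der_eq (V : Derivation ℂ A A) :
    (2 : A) • V = (Q.y * V Q.z - Q.z * V Q.y) • Q.a + (Q.x * V Q.z - Q.z * V Q.x) • Q.b +
      (Q.y * V Q.x - Q.x * V Q.y) • Q.h := by
  have h1 : V (Q.x * Q.y) = V (1 - Q.z ^ 2) := by rw [Q.hxyz]
  simp only [Derivation.leibniz, map_sub, Derivation.map_one_eq_zero, pow_two, smul_eq_mul] at h1
  have h2 := Q.hxyz
  apply Q.der_ext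
  · simp only [Derivation.add_apply, Derivation.smul_apply, Q.hax, Q.hbx, Q.hhx, smul_eq_mul]
    linear_combination (-(V Q.x) * 2) * h2 + Q.x * h1
  · simp only [Derivation.add_apply, Derivation.smul_apply, Q.hay, Q.hby, Q.hhy, smul_eq_mul]
    linear_combination (-(V Q.y) * 2) * h2 + Q.y * h1
  · simp only [Derivation.add_apply, Derivation.smul_apply, Q.haz, Q.hbz, Q.hhz, smul_eq_mul]
    linear_combination (-(V Q.z) * 2) * h2 + Q.z * h1

section liealg

lemma smul_cancel (g : LieSubalgebra ℂ (Derivation ℂ A A)) {D : Derivation ℂ A A} (n : ℕ)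
    (hD : ((n : A) + 1) • D ∈ g) : D ∈ g := by
  have h2 : ((n : ℂ) + 1) ≠ 0 := Nat.cast_add_one_ne_zero n
  have h3 : ((n : A) + 1) • D = ((n : ℂ) + 1) • D := by
    ext f
    simp [Algebra.smul_def]
  rw [h3] at hD
  have := g.smul_mem ((n : ℂ) + 1)⁻¹ hD
  rwa [smul_smul, inv_mul_cancel₀ h2, one_smul] at this

lemma nat_smul_mem (g : LieSubalgebra ℂ (Derivation ℂ A A)) {D : Derivation ℂ A A} (n : ℕ)
    (hD : D ∈ g) : (n : A) • D ∈ g := by
  have h3 : (n : A) • D = (n : ℂ) • D := by
    ext f
    simp [Algebra.smul_def]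
  rw [h3]
  exact g.smul_mem _ hD

variable (g : LieSubalgebra ℂ (Derivation ℂ A A))
  (ga : ∀ k : ℕ, Q.x ^ k • Q.a ∈ g) (gza : ∀ k : ℕ, (Q.x ^ k * Q.z) • Q.a ∈ g) (gb : Q.b ∈ g)

include ga gza gb

/-- `x^k h ∈ g` -/
lemma gh (k : ℕ) : Q.x ^ k • Q.h ∈ g := by
  match k with
  | 0 =>
    have h1 := g.lie_mem (ga 0) gb
    rw [pow_zero, one_smul, Q.lie_ab] at h1
    apply smul_cancel g 1
    have h2 := g.neg_mem h1
    rw [neg_neg] at h2
    rw [pow_zero, one_smul]
    convert h2 using 2
    norm_num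
  | (k + 1) =>
    have h1 := g.lie_mem (ga (k + 1)) gb
    rw [lie_smul_left, Q.lie_ab] at h1
    have h2 := nat_smul_mem g (2 * (k + 1)) (gza k)
    apply smul_cancel g 1
    have h3 := g.sub_mem h2 h1
    convert h3 using 1
    ext f
    simp only [Derivation.sub_apply, Derivation.smul_apply, Derivation.neg_apply, smul_eq_mul,
      Derivation.leibniz_pow, Q.hbx, nsmul_eq_mul, Nat.add_sub_cancel]
    push_cast
    ring

/-- `x^(k+1) z h`, `x^k z^2 a`, `x^(k+2) b ∈ g` -/
lemma gB (k : ℕ) : (Q.x ^ (k + 1) * Q.z) • Q.h ∈ g ∧ Q.x ^ (k + 2) • Q.b ∈ g := by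
  -- (2)
  have e2 := g.lie_mem (gza (k + 1)) gb
  rw [lie_smul_left, Q.lie_ab] at e2
  -- (3)
  have e3 := g.lie_mem (Q.gh g ga gza gb (k + 2)) gb
  rw [lie_smul_left, Q.lie_hb] at e3
  have e4 := Q.rel_abh
  have e0 := ga k
  have hxyz := Q.hxyz
  -- B
  have hB : (Q.x ^ (k + 1) * Q.z) • Q.h ∈ g := by
    apply smul_cancel g (2 * k + 3)
    apply smul_cancel g (2 * k + 4)
    have h3 := g.sub_mem (g.add_mem (nat_smul_mem g (2 * k + 3) e3) (nat_smul_mem g (2 * k + 2) e0)) e2
    convert h3 using 1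
    have e5 : (Q.x ^ (k + 1)) • (Q.y • Q.a - Q.x • Q.b) = (Q.x ^ (k + 1)) • ((2 * Q.z) • Q.h) := by rw [e4]
    ext f
    have e6 := congrArg (fun D : Derivation ℂ A A => D f) e5
    simp only [Derivation.sub_apply, Derivation.smul_apply, smul_eq_mul] at e6
    simp only [Derivation.sub_apply, Derivation.add_apply, Derivation.smul_apply, Derivation.neg_apply, smul_eq_mul,
      Derivation.leibniz, Derivation.leibniz_pow, Q.hbx, Q.hbz, nsmul_eq_mul, Nat.add_sub_cancel]
    push_cast
    linear_combination (-(2 * (k : A) + 3)) * e6 + (2 * (k : A) + 2) * Q.x ^ k * Q.a f * hxyz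
  refine ⟨hB, ?_⟩
  have h3 := g.sub_mem (nat_smul_mem g (2 * (k + 2)) hB) e3
  convert h3 using 1
  ext f
  simp only [Derivation.sub_apply, Derivation.add_apply, Derivation.smul_apply, Derivation.neg_apply, smul_eq_mul,
      Derivation.leibniz, Derivation.leibniz_pow, Q.hbx, Q.hbz, nsmul_eq_mul]
  push_cast
  ring

/-- `x b ∈ g` -/
lemma gxb : Q.x • Q.b ∈ g := by
  have e2 := g.lie_mem (gza 0) gb
  rw [lie_smul_left, Q.lie_ab] at e2
  have e3 := g.lie_mem (Q.gh g ga gza gb 1) gb
  rw [lie_smul_left, Q.lie_hb] at e3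
  have e4 := Q.rel_abh
  have hB : Q.z • Q.h ∈ g := by
    apply smul_cancel g 5
    have h3 := g.sub_mem e3 e2
    convert h3 using 1
    ext f
    have e6 := congrArg (fun D : Derivation ℂ A A => D f) e4
    simp only [Derivation.sub_apply, Derivation.smul_apply, smul_eq_mul] at e6
    simp only [Derivation.sub_apply, Derivation.add_apply, Derivation.smul_apply, Derivation.neg_apply, smul_eq_mul,
      Derivation.leibniz, Derivation.leibniz_pow, Q.hbx, Q.hbz, nsmul_eq_mul, pow_zero, one_mul, pow_one]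
    push_cast
    linear_combination (-1 : A) * e6
  have h3 := g.sub_mem (nat_smul_mem g 2 hB) e3
  convert h3 using 1
  ext f
  simp only [Derivation.sub_apply, Derivation.add_apply, Derivation.smul_apply, Derivation.neg_apply, smul_eq_mul,
      Derivation.leibniz, Derivation.leibniz_pow, Q.hbx, Q.hbz, nsmul_eq_mul, pow_one]
  push_cast
  ring

lemma gxkb (k : ℕ) : Q.x ^ k • Q.b ∈ g := by
  match k with
  | 0 => simpa using gb
  | 1 => simpa using Q.gxb g ga gza gb
  | (k + 2) => exact (Q.gB g ga gza gb k).2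

/-- The Lie subalgebra is everything. -/
theorem lieSub_eq_top : g = ⊤ := by
  -- the subspace N
  let N : Submodule ℂ A :=
    { carrier := {f | f • Q.a ∈ g ∧ f • Q.b ∈ g ∧ f • Q.h ∈ g}
      add_mem' := by
        rintro f f' ⟨h1, h2, h3⟩ ⟨h1', h2', h3'⟩
        refine ⟨?_, ?_, ?_⟩ <;> rw [add_smul]
        · exact g.add_mem h1 h1'
        · exact g.add_mem h2 h2'
        · exact g.add_mem h3 h3'
      zero_mem' := by simp
      smul_mem' := by
        rintro c f ⟨h1, h2, h3⟩
        refine ⟨?_, ?_, ?_⟩ <;> rw [smul_assoc]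
        · exact g.smul_mem c h1
        · exact g.smul_mem c h2
        · exact g.smul_mem c h3 }
  have hN : ∀ f, f ∈ N ↔ f • Q.a ∈ g ∧ f • Q.b ∈ g ∧ f • Q.h ∈ g := fun f => Iff.rfl
  have hNx : ∀ k, Q.x ^ k ∈ N := fun k => ⟨ga k, Q.gxkb g ga gza gb k, Q.gh g ga gza gb k⟩
  -- N is stable under b
  have hNb : ∀ f ∈ N, Q.b f ∈ N := by
    rintro f ⟨h1, h2, h3⟩
    refine ⟨?_, ?_, ?_⟩
    · have e := g.lie_mem gb h1
      rw [lie_smul_right, ← lie_skew, Q.lie_ab, neg_neg] at e
      have e' := g.sub_mem e (nat_smul_mem g 2 h3)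
      convert e' using 1
      ext u
      simp only [Derivation.sub_apply, Derivation.add_apply, Derivation.smul_apply, smul_eq_mul]
      push_cast
      ring
    · have e := g.lie_mem gb h2
      rw [lie_smul_right, lie_self, smul_zero, zero_add] at e
      exact e
    · have e := g.lie_mem gb h3
      rw [lie_smul_right, ← lie_skew, Q.lie_hb, neg_neg] at e
      have e' := g.sub_mem e h2
      convert e' using 1
      ext u
      simp only [Derivation.sub_apply, Derivation.add_apply, Derivation.smul_apply, smul_eq_mul]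
      ring
  have hNcancel : ∀ (n : ℕ) (f : A), ((n : A) + 1) * f ∈ N → f ∈ N := by
    rintro n f ⟨h1, h2, h3⟩
    rw [mul_smul] at h1 h2 h3
    exact ⟨smul_cancel g n h1, smul_cancel g n h2, smul_cancel g n h3⟩
  have hNnat : ∀ (n : ℕ) (f : A), f ∈ N → (n : A) * f ∈ N := by
    rintro n f ⟨h1, h2, h3⟩
    refine ⟨?_, ?_, ?_⟩ <;> rw [mul_smul]
    · exact nat_smul_mem g n h1
    · exact nat_smul_mem g n h2
    · exact nat_smul_mem g n h3
  -- all monomials
  have hmono : ∀ n : ℕ, (∀ i j, i + j = n → Q.x ^ i * Q.z ^ j ∈ N) ∧ (∀ i j, i + j = n → Q.y ^ i * Q.z ^ j ∈ N) := by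
    intro n
    induction n using Nat.strong_induction_on with
    | _ n ih =>
      have hx : ∀ j i, i + j = n → Q.x ^ i * Q.z ^ j ∈ N := by
        intro j
        induction j with
        | zero => intro i hi; simpa using hNx i
        | succ j ihj =>
          intro i hi
          have e1 := hNb _ (ihj (i + 1) (by omega))
          match j with
          | 0 =>
            apply hNcancel (2 * i + 1)
            have e2 := N.neg_mem e1
            convert e2 using 1
            simp only [Derivation.leibniz, Derivation.leibniz_pow, Q.hbx, Q.hbz, nsmul_eq_mul, smul_eq_mul,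
              Nat.add_sub_cancel, pow_zero, Derivation.map_one_eq_zero]
            push_cast
            ring
          | (j + 1) =>
            have e3 := (ih (i + j) (by omega)).1 i j rfl
            apply hNcancel (2 * i + j + 2)
            have e2 := N.sub_mem (hNnat (j + 1) _ e3) e1
            convert e2 using 1
            have hxyz := Q.hxyz
            simp only [Derivation.leibniz, Derivation.leibniz_pow, Q.hbx, Q.hbz, nsmul_eq_mul, smul_eq_mul,
              Nat.add_sub_cancel]
            push_cast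
            linear_combination ((j : A) + 1) * Q.x ^ i * Q.z ^ j * hxyz
      refine ⟨fun i j hij => hx j i hij, ?_⟩
      intro i
      induction i with
      | zero =>
        intro j hj
        have := hx j 0 (by omega)
        simpa using this
      | succ i ihi =>
        intro j hj
        have e1 := hNb _ (ihi (j + 1) (by omega))
        apply hNcancel j
        convert e1 using 1
        simp only [Derivation.leibniz, Derivation.leibniz_pow, Q.hby, Q.hbz, nsmul_eq_mul, smul_eq_mul,
              Nat.add_sub_cancel]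
        push_cast
        ring
  -- N is everything
  let S : Submodule ℂ A := Submodule.span ℂ {f | ∃ i j, f = Q.x ^ i * Q.z ^ j ∨ f = Q.y ^ i * Q.z ^ j}
  have hSx : ∀ i j, Q.x ^ i * Q.z ^ j ∈ S := fun i j => Submodule.subset_span ⟨i, j, Or.inl rfl⟩
  have hSy : ∀ i j, Q.y ^ i * Q.z ^ j ∈ S := fun i j => Submodule.subset_span ⟨i, j, Or.inr rfl⟩
  have hST : S = ⊤ := by
    refine eq_top_of_mul_mem S (by simpa using hSx 0 0) _ Q.hgen ?_
    intro u hu f hf
    induction hf using Submodule.span_induction with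
    | zero => simp
    | add p q _ _ hp hq => rw [mul_add]; exact S.add_mem hp hq
    | smul c p _ hp => rw [mul_smul_comm]; exact S.smul_mem c hp
    | mem f hf =>
      obtain ⟨i, j, hf | hf⟩ := hf
      · subst hf
        rcases hu with rfl | rfl | rfl
        · convert hSx (i + 1) j using 1; ring
        · match i with
          | 0 => convert hSy 1 j using 1; ring
          | (i + 1) =>
            have e := S.sub_mem (hSx i j) (hSx i (j + 2))
            convert e using 1
            have hxyz := Q.hxyz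
            linear_combination Q.x ^ i * Q.z ^ j * hxyz
        · convert hSx i (j + 1) using 1; ring
      · subst hf
        rcases hu with rfl | rfl | rfl
        · match i with
          | 0 => convert hSx 1 j using 1; ring
          | (i + 1) =>
            have e := S.sub_mem (hSy i j) (hSy i (j + 2))
            convert e using 1
            have hxyz := Q.hxyz
            linear_combination Q.y ^ i * Q.z ^ j * hxyz
        · convert hSy (i + 1) j using 1; ring
        · convert hSy i (j + 1) using 1; ring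
  have hSN : S ≤ N := by
    rw [Submodule.span_le]
    rintro f ⟨i, j, rfl | rfl⟩
    · exact (hmono (i + j)).1 i j rfl
    · exact (hmono (i + j)).2 i j rfl
  have hNT : ∀ f : A, f ∈ N := fun f => hSN (by rw [hST]; trivial)
  rw [eq_top_iff]
  intro V _
  have e := Q.der_eq V
  apply smul_cancel g 1
  have e2 : (((1 : ℕ) : A) + 1) • V = (2 : A) • V := by congr 1; norm_num
  rw [e2, e]
  exact g.add_mem (g.add_mem (hNT _).1 (hNT _).2.1) (hNT _).2.2

end liealg

/-- A derivation is locally nilpotent as soon as it is so on a generating set. -/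
lemma locNil_of_gen (D : Derivation ℂ A A) (s : Set A) (hs : Algebra.adjoin ℂ s = ⊤)
    (h : ∀ f ∈ s, ∃ k : ℕ, (⇑D)^[k] f = 0) (f : A) : ∃ k : ℕ, (⇑D)^[k] f = 0 := by
  have hadd : ∀ (k : ℕ) (u v : A), (⇑D)^[k] (u + v) = (⇑D)^[k] u + (⇑D)^[k] v := by
    intro k
    induction k with
    | zero => intro u v; rfl
    | succ k ih => intro u v; rw [Function.iterate_succ_apply, map_add, ih]; rfl
  have hzero : ∀ k : ℕ, (⇑D)^[k] (0 : A) = 0 := by
    intro k
    induction k with
    | zero => rfl
    | succ k ih => rw [Function.iterate_succ_apply, map_zero, ih]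
  have hmono : ∀ (k l : ℕ) (u : A), k ≤ l → (⇑D)^[k] u = 0 → (⇑D)^[l] u = 0 := by
    intro k l u hkl hu
    obtain ⟨m, rfl⟩ := Nat.exists_eq_add_of_le hkl
    rw [Nat.add_comm, Function.iterate_add_apply, hu, hzero]
  have hmul : ∀ (N m n : ℕ) (u v : A), m + n = N → (⇑D)^[m] u = 0 → (⇑D)^[n] v = 0 →
      (⇑D)^[N] (u * v) = 0 := by
    intro N
    induction N with
    | zero =>
      intro m n u v hmn hu hv
      have hm : m = 0 := by omega
      subst hm
      have : u = 0 := hu
      rw [this, zero_mul]; rfl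
    | succ N ih =>
      intro m n u v hmn hu hv
      match m, n with
      | 0, n =>
        have : u = 0 := hu
        rw [this, zero_mul, hzero]
      | m, 0 =>
        have : v = 0 := hv
        rw [this, mul_zero, hzero]
      | (m + 1), (n + 1) =>
        rw [Function.iterate_succ_apply, Derivation.leibniz, hadd, smul_eq_mul, smul_eq_mul,
          ih (m + 1) n u (D v) (by omega) hu hv, ih (n + 1) m v (D u) (by omega) hv hu, add_zero]
  have hf : f ∈ Algebra.adjoin ℂ s := by rw [hs]; trivial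
  induction hf using Algebra.adjoin_induction with
  | mem f hf => exact h f hf
  | algebraMap r => exact ⟨1, by simp⟩
  | add u v _ _ hu hv =>
    obtain ⟨k, hk⟩ := hu
    obtain ⟨l, hl⟩ := hv
    refine ⟨k + l, ?_⟩
    rw [hadd, hmono k (k + l) u (by omega) hk, hmono l (k + l) v (by omega) hl, add_zero]
  | mul u v _ _ hu hv =>
    obtain ⟨k, hk⟩ := hu
    obtain ⟨l, hl⟩ := hv
    exact ⟨k + l, hmul (k + l) k l u v rfl hk hl⟩

lemma locNil_a (f : A) : ∃ k : ℕ, (⇑Q.a)^[k] f = 0 := by
  apply locNil_of_gen Q.a _ Q.hgen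
  rintro f (rfl | rfl | rfl)
  · exact ⟨1, Q.hax⟩
  · refine ⟨3, ?_⟩
    simp [Function.iterate_succ_apply, Q.hay, Q.haz, Q.hax, der_two]
  · refine ⟨2, ?_⟩
    simp [Function.iterate_succ_apply, Q.haz, Q.hax]

lemma locNil_b (f : A) : ∃ k : ℕ, (⇑Q.b)^[k] f = 0 := by
  apply locNil_of_gen Q.b _ Q.hgen
  rintro f (rfl | rfl | rfl)
  · refine ⟨3, ?_⟩
    simp [Function.iterate_succ_apply, Q.hbx, Q.hbz, Q.hby, der_two]
  · exact ⟨1, Q.hby⟩
  · refine ⟨2, ?_⟩
    simp [Function.iterate_succ_apply, Q.hbz, Q.hby]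

include Q in
/-- The algebraic overshear density property for the quadric. -/
theorem overshear :
    LieSubalgebra.lieSpan ℂ (Derivation ℂ A A)
      {V | ∃ Θ : Derivation ℂ A A, (∀ g : A, ∃ k : ℕ, (⇑Θ)^[k] g = 0) ∧
        ∃ f : A, Θ (Θ f) = 0 ∧ V = f • Θ} = ⊤ := by
  refine Q.lieSub_eq_top _ ?_ ?_ ?_
  · intro k
    apply LieSubalgebra.subset_lieSpan
    refine ⟨Q.a, Q.locNil_a, Q.x ^ k, ?_, rfl⟩
    simp [Derivation.leibniz_pow, Q.hax]
  · intro k
    apply LieSubalgebra.subset_lieSpan
    refine ⟨Q.a, Q.locNil_a, Q.x ^ k * Q.z, ?_, rfl⟩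
    simp [Derivation.leibniz_pow, Q.hax, Q.haz]
  · apply LieSubalgebra.subset_lieSpan
    exact ⟨Q.b, Q.locNil_b, 1, by simp, by simp⟩

end QData

end

end Pool.Agent.MP_04e188_an
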