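import Mathlib
import Pool.Agent.MP_04e188_an.LieGen

open MvPolynomial

set_option linter.unusedSimpArgs false

namespace Pool.Agent.MP_04e188_an

/-- the equation of the quadric -/
noncomputable def qf : MvPolynomial (Fin 3) ℂ := X 0 ^ 2 + X 1 ^ 2 + X 2 ^ 2 - 1

/-- the ideal of the quadric -/
noncomputable def qI : Ideal (MvPolynomial (Fin 3) ℂ) := Ideal.span {qf}

lemma qf_mem : qf ∈ qI := Ideal.mem_span_singleton_self qf

lemma vanish_iff (x : Fin 3 → ℂ) : (∀ p ∈ qI, eval x p = 0) ↔ x 0 ^ 2 + x 1 ^ 2 + x 2 ^ 2 = 1 := by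
  constructor
  · intro h
    have := h qf qf_mem
    simp only [qf, map_sub, map_add, map_pow, eval_X, map_one] at this
    linear_combination this
  · intro h p hp
    rw [qI, Ideal.mem_span_singleton] at hp
    obtain ⟨q, rfl⟩ := hp
    rw [map_mul]
    have : eval x qf = 0 := by
      simp only [qf, map_sub, map_add, map_pow, eval_X, map_one]
      linear_combination h
    rw [this, zero_mul]

lemma qf_irreducible : Irreducible qf := by
  have h1 : finSuccEquiv ℂ 2 qf = Polynomial.X ^ 2 + Polynomial.C (X 0 ^ 2 + X 1 ^ 2 - 1) := by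
    have e0 : finSuccEquiv ℂ 2 (X 0) = Polynomial.X := finSuccEquiv_X_zero
    have e1 : finSuccEquiv ℂ 2 (X 1) = Polynomial.C (X 0) := finSuccEquiv_X_succ (j := 0)
    have e2 : finSuccEquiv ℂ 2 (X 2) = Polynomial.C (X 1) := finSuccEquiv_X_succ (j := 1)
    simp only [qf, map_sub, map_add, map_pow, map_one, e0, e1, e2]
    ring
  rw [← MulEquiv.irreducible_iff (finSuccEquiv ℂ 2), h1]
  have hmonic : (Polynomial.X ^ 2 + Polynomial.C (X 0 ^ 2 + X 1 ^ 2 - 1) :
      Polynomial (MvPolynomial (Fin 2) ℂ)).Monic := Polynomial.monic_X_pow_add_C _ (by norm_num)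
  have hdeg : (Polynomial.X ^ 2 + Polynomial.C (X 0 ^ 2 + X 1 ^ 2 - 1) :
      Polynomial (MvPolynomial (Fin 2) ℂ)).natDegree = 2 := Polynomial.natDegree_X_pow_add_C
  rw [hmonic.irreducible_iff_roots_eq_zero_of_degree_le_three (by rw [hdeg]) (by rw [hdeg]; norm_num)]
  rw [Multiset.eq_zero_iff_forall_notMem]
  intro g hg
  rw [Polynomial.mem_roots hmonic.ne_zero, Polynomial.IsRoot.def] at hg
  simp only [Polynomial.eval_add, Polynomial.eval_pow, Polynomial.eval_X, Polynomial.eval_C] at hg
  have h2 := congrArg (pderiv 0) hg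
  simp only [map_add, map_sub, Derivation.leibniz_pow, pderiv_X_self,
    pderiv_X_of_ne (show (1 : Fin 2) ≠ 0 by decide), Derivation.map_one_eq_zero, map_zero, smul_zero,
    smul_eq_mul, mul_one, nsmul_eq_mul] at h2
  have h3 := congrArg (eval ![1, 0]) hg
  have h4 := congrArg (eval ![1, 0]) h2
  simp at h3 h4
  rw [h3] at h4
  simp at h4

lemma qI_prime : qI.IsPrime := by
  rw [qI, Ideal.span_singleton_prime qf_irreducible.ne_zero]
  exact UniqueFactorizationMonoid.irreducible_iff_prime.1 qf_irreducible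

lemma qI_not_maximal : ¬ qI.IsMaximal := by
  intro h
  have hm : qI ≤ RingHom.ker (eval (![1, 0, 0] : Fin 3 → ℂ)) := by
    intro p hp
    rw [RingHom.mem_ker]
    exact (vanish_iff _).2 (by simp) p hp
  have hne : RingHom.ker (eval (![1, 0, 0] : Fin 3 → ℂ)) ≠ ⊤ := RingHom.ker_ne_top _
  have heq := h.eq_of_le hne hm
  have h1 : (X 0 - 1 : MvPolynomial (Fin 3) ℂ) ∈ qI := by
    rw [heq, RingHom.mem_ker]; simp
  have h2 := (vanish_iff (![0, 1, 0] : Fin 3 → ℂ)).2 (by simp) _ h1
  simp at h2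

lemma qI_smooth : Algebra.Smooth ℂ (MvPolynomial (Fin 3) ℂ ⧸ qI) := by
  have h1 : Algebra.FinitePresentation ℂ (MvPolynomial (Fin 3) ℂ ⧸ qI) :=
    Algebra.FinitePresentation.quotient ⟨{qf}, by simp [qI]⟩
  have h2 : Algebra.FormallySmooth ℂ (MvPolynomial (Fin 3) ℂ ⧸ qI) := by
    apply Algebra.FormallySmooth.of_comp_surjective
    intro B _ _ J hJ f
    have hlift : ∀ i : Fin 3, ∃ b : B, Ideal.Quotient.mk J b = f (Ideal.Quotient.mk qI (X i)) := fun i =>
      Ideal.Quotient.mk_surjective _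
    choose b hb using hlift
    set ε : B := b 0 ^ 2 + b 1 ^ 2 + b 2 ^ 2 - 1 with hε
    have hεJ : ε ∈ J := by
      rw [← Ideal.Quotient.eq_zero_iff_mem, hε]
      simp only [map_sub, map_add, map_pow, map_one, hb]
      rw [← map_pow f, ← map_pow f, ← map_pow f, ← map_add f, ← map_add f, ← map_one f, ← map_sub f]
      have : (Ideal.Quotient.mk qI (X 0)) ^ 2 + (Ideal.Quotient.mk qI (X 1)) ^ 2 +
          (Ideal.Quotient.mk qI (X 2)) ^ 2 - 1 = 0 := by
        have h3 := Ideal.Quotient.eq_zero_iff_mem.2 qf_mem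
        simpa [qf] using h3
      rw [this, map_zero]
    have hε2 : ε * ε = 0 := by
      have : ε * ε ∈ J ^ 2 := by rw [pow_two]; exact Ideal.mul_mem_mul hεJ hεJ
      rw [hJ] at this
      simpa using this
    let half : B := algebraMap ℂ B (1/2)
    have hhalf : 2 * half = 1 := by
      have : (2 : B) = algebraMap ℂ B 2 := (map_ofNat (algebraMap ℂ B) 2).symm
      rw [this, ← map_mul]; norm_num
    let c : Fin 3 → B := fun i => b i - ε * half * b i
    have hc : c 0 ^ 2 + c 1 ^ 2 + c 2 ^ 2 - 1 = 0 := by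
      simp only [c]
      have e1 : b 0 ^ 2 + b 1 ^ 2 + b 2 ^ 2 = ε + 1 := by rw [hε]; ring
      linear_combination (1 - ε * half) ^ 2 * e1 + (half ^ 2 * (ε + 1) - 2 * half) * hε2 - ε * hhalf
    let g0 : MvPolynomial (Fin 3) ℂ →ₐ[ℂ] B := aeval c
    have hg0 : ∀ p ∈ qI, g0 p = 0 := by
      intro p hp
      rw [qI, Ideal.mem_span_singleton] at hp
      obtain ⟨q, rfl⟩ := hp
      rw [map_mul]
      have : g0 qf = 0 := by
        simp only [g0, qf, map_sub, map_add, map_pow, aeval_X, map_one]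
        exact hc
      rw [this, zero_mul]
    refine ⟨Ideal.Quotient.liftₐ qI g0 hg0, ?_⟩
    apply Ideal.Quotient.algHom_ext
    apply MvPolynomial.algHom_ext
    intro i
    have h4 : Ideal.Quotient.mk J (c i) = Ideal.Quotient.mk J (b i) := by
      rw [Ideal.Quotient.eq]
      have : c i - b i = - (half * b i) * ε := by simp only [c]; ring
      rw [this]
      exact J.mul_mem_left _ hεJ
    have h5 : g0 (X i) = c i := by simp [g0]
    change Ideal.Quotient.mk J (g0 (X i)) = f (Ideal.Quotient.mk qI (X i))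
    rw [h5, h4, hb]
  exact ⟨h2, h1⟩

/-- a rotation field on the polynomial ring -/
noncomputable def rotP (i j : Fin 3) : Derivation ℂ (MvPolynomial (Fin 3) ℂ) (MvPolynomial (Fin 3) ℂ) :=
  (X i : MvPolynomial (Fin 3) ℂ) • pderiv j - (X j : MvPolynomial (Fin 3) ℂ) • pderiv i

lemma rotP_X (i j k : Fin 3) : rotP i j (X k) = (if k = j then X i else 0) - (if k = i then X j else 0) := by
  have h : ∀ l m : Fin 3, pderiv m (X l : MvPolynomial (Fin 3) ℂ) = if l = m then 1 else 0 := by
    intro l m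
    by_cases h : l = m
    · subst h; simp
    · rw [pderiv_X_of_ne h, if_neg h]
  simp only [rotP, Derivation.sub_apply, Derivation.smul_apply, smul_eq_mul, h, mul_ite, mul_one, mul_zero]

lemma rotP_qf (i j : Fin 3) : rotP i j qf = 0 := by
  simp only [qf, map_sub, map_add, Derivation.leibniz_pow, Derivation.map_one_eq_zero, rotP_X, smul_eq_mul,
    nsmul_eq_mul]
  fin_cases i <;> fin_cases j <;> simp <;> ring

lemma rotP_mem (i j : Fin 3) (p : MvPolynomial (Fin 3) ℂ) (hp : Ideal.Quotient.mkₐ ℂ qI p = 0) :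
    Ideal.Quotient.mkₐ ℂ qI (rotP i j p) = 0 := by
  rw [Ideal.Quotient.mkₐ_eq_mk, Ideal.Quotient.eq_zero_iff_mem] at hp ⊢
  rw [qI, Ideal.mem_span_singleton] at hp
  obtain ⟨q, rfl⟩ := hp
  rw [Derivation.leibniz, rotP_qf, smul_zero, add_zero, smul_eq_mul]
  exact Ideal.mul_mem_right _ _ qf_mem

/-- the rotation field on the quadric -/
noncomputable def rotQ (i j : Fin 3) :
    Derivation ℂ (MvPolynomial (Fin 3) ℂ ⧸ qI) (MvPolynomial (Fin 3) ℂ ⧸ qI) :=
  Derivation.liftOfSurjective (Ideal.Quotient.mkₐ_surjective ℂ qI) (rotP_mem i j)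

lemma rotQ_mk (i j : Fin 3) (p : MvPolynomial (Fin 3) ℂ) :
    rotQ i j (Ideal.Quotient.mk qI p) = Ideal.Quotient.mk qI (rotP i j p) :=
  Derivation.liftOfSurjective_apply (Ideal.Quotient.mkₐ_surjective ℂ qI) (rotP_mem i j) p

lemma smul_mk (c : ℂ) (p : MvPolynomial (Fin 3) ℂ) :
    c • (Ideal.Quotient.mk qI p) = Ideal.Quotient.mk qI (C c * p) := by
  rw [← Ideal.Quotient.mkₐ_eq_mk ℂ, ← map_smul, smul_eq_C_mul]

lemma rotP_C_mul (i j : Fin 3) (c : ℂ) (p : MvPolynomial (Fin 3) ℂ) :
    rotP i j (C c * p) = C c * rotP i j p := by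
  rw [← smul_eq_C_mul, Derivation.map_smul, smul_eq_C_mul]

lemma CI_sq : (C Complex.I : MvPolynomial (Fin 3) ℂ) * C Complex.I = -1 := by
  rw [← C_mul, Complex.I_mul_I]; simp

/-- The data of the quadric. -/
noncomputable def qData : QData (MvPolynomial (Fin 3) ℂ ⧸ qI) where
  x := Ideal.Quotient.mk qI (X 0 + C Complex.I * X 1)
  y := Ideal.Quotient.mk qI (X 0 - C Complex.I * X 1)
  z := Ideal.Quotient.mk qI (X 2)
  a := Complex.I • rotQ 1 2 - rotQ 2 0
  b := -(rotQ 2 0 + Complex.I • rotQ 1 2)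
  h := -(Complex.I • rotQ 0 1)
  hxyz := by
    have h3 := Ideal.Quotient.eq_zero_iff_mem.2 qf_mem
    have hI : (C Complex.I : MvPolynomial (Fin 3) ℂ) * C Complex.I = -1 := by
      rw [← C_mul, Complex.I_mul_I]; simp
    have e : (X 0 + C Complex.I * X 1) * (X 0 - C Complex.I * X 1) = qf + (1 - X 2 ^ 2) := by
      simp only [qf]
      linear_combination (-(X 1 ^ 2)) * hI
    rw [← map_mul, e, map_add, h3, zero_add]
    simp
  hgen := by
    rw [eq_top_iff]
    intro u _
    obtain ⟨p, rfl⟩ := Ideal.Quotient.mk_surjective u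
    set S := Algebra.adjoin ℂ ({Ideal.Quotient.mk qI (X 0 + C Complex.I * X 1),
      Ideal.Quotient.mk qI (X 0 - C Complex.I * X 1), Ideal.Quotient.mk qI (X 2)} :
      Set (MvPolynomial (Fin 3) ℂ ⧸ qI)) with hS
    have hx : Ideal.Quotient.mk qI (X 0 + C Complex.I * X 1) ∈ S := Algebra.subset_adjoin (by simp)
    have hy : Ideal.Quotient.mk qI (X 0 - C Complex.I * X 1) ∈ S := Algebra.subset_adjoin (by simp)
    have hz : Ideal.Quotient.mk qI (X 2) ∈ S := Algebra.subset_adjoin (by simp)
    have hI : (C Complex.I : MvPolynomial (Fin 3) ℂ) * C Complex.I = -1 := by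
      rw [← C_mul, Complex.I_mul_I]; simp
    have h2 : (C (1/2 : ℂ) : MvPolynomial (Fin 3) ℂ) * 2 = 1 := by
      have : (2 : MvPolynomial (Fin 3) ℂ) = C 2 := (map_ofNat (C : ℂ →+* MvPolynomial (Fin 3) ℂ) 2).symm
      rw [this, ← C_mul]; norm_num
    have h0 : Ideal.Quotient.mk qI (X 0) ∈ S := by
      have := S.smul_mem (S.add_mem hx hy) (1/2 : ℂ)
      convert this using 1
      rw [← map_add, ← Ideal.Quotient.mkₐ_eq_mk ℂ, ← map_smul, smul_eq_C_mul]
      congr 1
      linear_combination (-(X 0)) * h2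
    have h1 : Ideal.Quotient.mk qI (X 1) ∈ S := by
      have := S.smul_mem (S.smul_mem (S.sub_mem hx hy) (1/2 : ℂ)) (-Complex.I)
      convert this using 1
      rw [← map_sub, ← Ideal.Quotient.mkₐ_eq_mk ℂ, ← map_smul, ← map_smul, smul_eq_C_mul, smul_eq_C_mul, C_neg]
      congr 1
      linear_combination (-(X 1)) * h2 + (C (1/2 : ℂ) * 2 * X 1) * hI
    induction p using MvPolynomial.induction_on with
    | C r => exact S.algebraMap_mem r
    | add p q hp hq => rw [map_add]; exact S.add_mem (hp trivial) (hq trivial)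
    | mul_X p i hp =>
      rw [map_mul]
      refine S.mul_mem (hp trivial) ?_
      fin_cases i
      · exact h0
      · exact h1
      · exact hz
  hax := by
    simp only [Derivation.sub_apply, Derivation.neg_apply, Derivation.add_apply, Derivation.smul_apply,
      rotQ_mk, smul_mk, ← map_sub, ← map_add, ← map_neg]
    refine Eq.trans (congrArg (Ideal.Quotient.mk qI) (?_ : _ = (0 : MvPolynomial (Fin 3) ℂ))) (by simp)
    simp only [map_add, map_sub, rotP_C_mul, rotP_X, Fin.isValue, Fin.reduceEq, if_true, if_false]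
    linear_combination (-(X 2)) * CI_sq
  hay := by
    simp only [Derivation.sub_apply, Derivation.neg_apply, Derivation.add_apply, Derivation.smul_apply,
      rotQ_mk, smul_mk, ← map_sub, ← map_add, ← map_neg]
    refine Eq.trans (congrArg (Ideal.Quotient.mk qI) (?_ : _ = (-(2 * X 2) : MvPolynomial (Fin 3) ℂ)))
      (by rw [map_neg, map_mul, map_ofNat])
    simp only [map_add, map_sub, rotP_C_mul, rotP_X, Fin.isValue, Fin.reduceEq, if_true, if_false]
    linear_combination (X 2) * CI_sq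
  haz := by
    simp only [Derivation.sub_apply, Derivation.neg_apply, Derivation.add_apply, Derivation.smul_apply,
      rotQ_mk, smul_mk, ← map_sub, ← map_add, ← map_neg]
    refine Eq.trans (congrArg (Ideal.Quotient.mk qI) (?_ : _ = (X 0 + C Complex.I * X 1 : MvPolynomial (Fin 3) ℂ))) (by simp)
    simp only [map_add, map_sub, rotP_C_mul, rotP_X, Fin.isValue, Fin.reduceEq, if_true, if_false]
    ring
  hbx := by
    simp only [Derivation.sub_apply, Derivation.neg_apply, Derivation.add_apply, Derivation.smul_apply,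
      rotQ_mk, smul_mk, ← map_sub, ← map_add, ← map_neg]
    refine Eq.trans (congrArg (Ideal.Quotient.mk qI) (?_ : _ = (-(2 * X 2) : MvPolynomial (Fin 3) ℂ)))
      (by rw [map_neg, map_mul, map_ofNat])
    simp only [map_add, map_sub, rotP_C_mul, rotP_X, Fin.isValue, Fin.reduceEq, if_true, if_false]
    linear_combination (X 2) * CI_sq
  hby := by
    simp only [Derivation.sub_apply, Derivation.neg_apply, Derivation.add_apply, Derivation.smul_apply,
      rotQ_mk, smul_mk, ← map_sub, ← map_add, ← map_neg]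
    refine Eq.trans (congrArg (Ideal.Quotient.mk qI) (?_ : _ = (0 : MvPolynomial (Fin 3) ℂ))) (by simp)
    simp only [map_add, map_sub, rotP_C_mul, rotP_X, Fin.isValue, Fin.reduceEq, if_true, if_false]
    linear_combination (-(X 2)) * CI_sq
  hbz := by
    simp only [Derivation.sub_apply, Derivation.neg_apply, Derivation.add_apply, Derivation.smul_apply,
      rotQ_mk, smul_mk, ← map_sub, ← map_add, ← map_neg]
    refine Eq.trans (congrArg (Ideal.Quotient.mk qI) (?_ : _ = (X 0 - C Complex.I * X 1 : MvPolynomial (Fin 3) ℂ))) (by simp)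
    simp only [map_add, map_sub, rotP_C_mul, rotP_X, Fin.isValue, Fin.reduceEq, if_true, if_false]
    ring
  hhx := by
    simp only [Derivation.sub_apply, Derivation.neg_apply, Derivation.add_apply, Derivation.smul_apply,
      rotQ_mk, smul_mk, ← map_sub, ← map_add, ← map_neg]
    refine Eq.trans (congrArg (Ideal.Quotient.mk qI) (?_ : _ = (X 0 + C Complex.I * X 1 : MvPolynomial (Fin 3) ℂ))) (by simp)
    simp only [map_add, map_sub, rotP_C_mul, rotP_X, Fin.isValue, Fin.reduceEq, if_true, if_false]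
    linear_combination (-(X 0)) * CI_sq
  hhy := by
    simp only [Derivation.sub_apply, Derivation.neg_apply, Derivation.add_apply, Derivation.smul_apply,
      rotQ_mk, smul_mk, ← map_sub, ← map_add, ← map_neg]
    refine Eq.trans (congrArg (Ideal.Quotient.mk qI) (?_ : _ = (-(X 0 - C Complex.I * X 1) : MvPolynomial (Fin 3) ℂ))) (by simp)
    simp only [map_add, map_sub, rotP_C_mul, rotP_X, Fin.isValue, Fin.reduceEq, if_true, if_false]
    linear_combination (X 0) * CI_sq
  hhz := by
    simp only [Derivation.sub_apply, Derivation.neg_apply, Derivation.add_apply, Derivation.smul_apply,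
      rotQ_mk, smul_mk, ← map_sub, ← map_add, ← map_neg]
    refine Eq.trans (congrArg (Ideal.Quotient.mk qI) (?_ : _ = (0 : MvPolynomial (Fin 3) ℂ))) (by simp)
    simp only [map_add, map_sub, rotP_C_mul, rotP_X, Fin.isValue, Fin.reduceEq, if_true, if_false]
    ring

end Pool.Agent.MP_04e188_an
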